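import Pool.Agent.Y538.Fun.Main
import Pool.Agent.Y538.Net.Final

/-!
# Networks computing functions of a product of two matrices: exponents
-/

set_option autoImplicit false
set_option linter.unusedSectionVars false

namespace Pool.Agent.Y538.Fun

open Topology Filter Finset Pool.Agent.Y538.Net Pool.Agent.H515R2.MMR Pool.Agent.W329.AR
open Pool.Agent.Y538.Par (two_le_omega)

section upper

variable {𝕜 : Type} [NontriviallyNormedField 𝕜] {n a b L d : ℕ}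

lemma aff_le_free (D : Set (Pairs 𝕜 n)) (g : ℕ → Fin b → Pairs 𝕜 n → 𝕜) (l : ℕ) :
    Aff g l ≤ Free D g l := by
  unfold Aff
  refine Submodule.span_le.mpr ?_
  rintro f (⟨ℓ, c, rfl⟩ | ⟨s, hs, o, rfl⟩)
  · have e : (fun x : Pairs 𝕜 n => ℓ x + c) =
        (fun x : Pairs 𝕜 n => (ℓ.comp (ContinuousLinearMap.inl 𝕜 _ _)) x.1 + c) +
        (fun x : Pairs 𝕜 n => (ℓ.comp (ContinuousLinearMap.inr 𝕜 _ _)) x.2) := by
      funext x
      have h1 : x = (x.1, 0) + (0, x.2) := by simp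
      simp only [Pi.add_apply, ContinuousLinearMap.comp_apply, ContinuousLinearMap.inl_apply,
        ContinuousLinearMap.inr_apply]
      conv_lhs => rw [h1, map_add]
      ring
    rw [e]
    refine Submodule.add_mem _ (Submodule.subset_span (Or.inl ?_))
      (Submodule.subset_span (Or.inr (Or.inl ?_)))
    · refine ⟨fun C => (ℓ.comp (ContinuousLinearMap.inl 𝕜 _ _)) C + c, fun x _ => ?_, rfl⟩
      exact (ContinuousLinearMap.contDiff _).contDiffAt.add contDiffAt_const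
    · refine ⟨fun C => (ℓ.comp (ContinuousLinearMap.inr 𝕜 _ _)) C, fun x _ => ?_, rfl⟩
      exact (ContinuousLinearMap.contDiff _).contDiffAt
  · exact Submodule.subset_span (Or.inr (Or.inr ⟨s, hs, o, rfl⟩))

lemma isNetF_of_isNet {D : Set (Pairs 𝕜 n)} {g : ℕ → Fin b → Pairs 𝕜 n → 𝕜}
    (h : IsNet a b L D g) : IsNetF a b L D g := by
  refine ⟨h.1, fun l hl => ?_⟩
  obtain ⟨u, φ, hu, hφ⟩ := h.2 l hl
  exact ⟨u, φ, fun i => aff_le_free D g l (hu i), hφ⟩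

lemma sum_single_fun (C : Fin n → Fin n → 𝕜) :
    C = ∑ i, ∑ j, C i j • (mu i j : Fin n → Fin n → 𝕜) := by
  funext k l
  simp only [Finset.sum_apply, Pi.smul_apply, smul_eq_mul, mu]
  rw [Fintype.sum_eq_single k, Fintype.sum_eq_single l]
  · simp
  · intro j hj
    simp [hj.symm]
  · intro i hi
    refine Finset.sum_eq_zero fun j _ => ?_
    simp [hi.symm]

/-- Linear functions of the product. -/
lemma solvesF_of_solves (h : Solves 𝕜 n a b L)
    (ℓ : (Fin n → Fin n → 𝕜) →L[𝕜] (Fin d → 𝕜)) (hℓ : Function.Surjective ℓ) :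
    SolvesF 𝕜 n a b L d ℓ := by
  classical
  obtain ⟨D, g, F, hnet, hm⟩ := h
  refine ⟨D, g, fun w o => ∑ i, ∑ j, ℓ (mu i j) o • F w i j, fun w =>
    ⟨isNetF_of_isNet (hnet w).1, fun o => ?_⟩, ?_⟩
  · refine Submodule.sum_mem _ fun i _ => Submodule.sum_mem _ fun j _ =>
      Submodule.smul_mem _ _ (aff_le_free _ _ _ ((hnet w).2 i j))
  · refine fun hcon => hm (hcon.mono ?_)
    rintro x ⟨w, hw, hF⟩
    refine ⟨ℓ.contDiff.contDiffAt, ?_, w, hw, fun o => ?_⟩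
    · rw [ContinuousLinearMap.fderiv]; exact hℓ
    · have h1 : ℓ (mm x) o = ∑ i, ∑ j, mm x i j * ℓ (mu i j) o := by
        conv_lhs => rw [sum_single_fun (mm x)]
        simp only [map_sum, map_smul, Finset.sum_apply, Pi.smul_apply, smul_eq_mul]
      rw [h1]
      simp only [Finset.sum_apply, Pi.smul_apply, smul_eq_mul]
      refine Finset.sum_congr rfl fun i _ => Finset.sum_congr rfl fun j _ => ?_
      rw [hF i j, mul_comm]
      rfl

end upper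

section exponents

/-- **Exponents.** -/
theorem exponent_lower {𝕜 : Type} [RCLike 𝕜] (σ : 𝕜 →+* ℂ) {a b : ℕ} {ε δ τ : ℝ} (hε : 0 < ε)
    (hδ : 1 < δ)
    (H : ∀ N : ℕ, ∃ n : ℕ, N ≤ n ∧ ∃ (d L : ℕ) (Φ : (Fin n → Fin n → 𝕜) → Fin d → 𝕜),
      SolvesF 𝕜 n a b L d Φ ∧ ε * (n : ℝ) ^ δ ≤ d ∧ (L : ℝ) ≤ (n : ℝ) ^ τ) :
    (1 + δ) * omega / 3 ≤ τ := by
  have hω := two_le_omega
  by_contra hcon
  push Not at hcon
  set K : ℝ := 2 * ((4 * (a * min a b) : ℕ) : ℝ) ^ (omega / 3) with hK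
  have hK0 : 0 ≤ K := by positivity
  set κ : ℝ := (ε / 2) ^ (omega / 3) with hκ
  have hκ0 : 0 < κ := by positivity
  have t1 := (tendsto_rpow_atTop (y := (1 + δ) * omega / 3 - τ) (by linarith)).comp
    (tendsto_natCast_atTop_atTop (R := ℝ))
  have t2 := (tendsto_rpow_atTop (y := δ - 1) (by linarith)).comp
    (tendsto_natCast_atTop_atTop (R := ℝ))
  obtain ⟨N, hN⟩ := ((t1.eventually (eventually_gt_atTop (K / κ))).and
    ((t2.eventually (eventually_ge_atTop (2 / ε))).and (eventually_ge_atTop 1))).exists_forall_of_atTop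
  obtain ⟨n, hn, d, L, Φ, h1, h2, h3⟩ := H N
  obtain ⟨g1, g2, g3⟩ := hN n hn
  simp only [Function.comp] at g1 g2
  have hn0 : (0 : ℝ) < n := by exact_mod_cast g3
  -- `n ≤ ε / 2 * n ^ δ`
  have h4 : (n : ℝ) ≤ ε / 2 * (n : ℝ) ^ δ := by
    have e : (n : ℝ) ^ δ = (n : ℝ) ^ (δ - 1) * n := by
      rw [← Real.rpow_add_one hn0.ne']; congr 1; ring
    rw [e]
    have : 1 ≤ ε / 2 * (n : ℝ) ^ (δ - 1) := by
      calc (1 : ℝ) = ε / 2 * (2 / ε) := by field_simp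
        _ ≤ _ := by gcongr
    nlinarith
  have h5 : ε / 2 * (n : ℝ) ^ δ ≤ ((d - n : ℕ) : ℝ) := by
    have h6 : (n : ℝ) ≤ d := by
      have : 0 ≤ ε / 2 * (n : ℝ) ^ δ := by positivity
      linarith
    have h7 : n ≤ d := by exact_mod_cast h6
    rw [Nat.cast_sub h7]
    linarith
  have h6 := lowerF σ h1
  have h7 : κ * (n : ℝ) ^ ((1 + δ) * omega / 3) ≤ ((n * (d - n) : ℕ) : ℝ) ^ (omega / 3) := by
    have e : κ * (n : ℝ) ^ ((1 + δ) * omega / 3) = (n * (ε / 2 * (n : ℝ) ^ δ)) ^ (omega / 3) := by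
      have e1 : (n : ℝ) * (ε / 2 * (n : ℝ) ^ δ) = ε / 2 * (n : ℝ) ^ (1 + δ) := by
        rw [Real.rpow_add hn0, Real.rpow_one]; ring
      rw [e1, Real.mul_rpow (by positivity) (by positivity), ← Real.rpow_mul hn0.le, hκ]
      congr 2
      ring
    rw [e]
    refine Real.rpow_le_rpow (by positivity) ?_ (by positivity)
    push_cast
    gcongr
  have h8 : κ * (n : ℝ) ^ ((1 + δ) * omega / 3) ≤ K * (n : ℝ) ^ τ := by
    refine (h7.trans h6).trans ?_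
    calc 2 * (L : ℝ) * ((4 * (a * min a b) : ℕ) : ℝ) ^ (omega / 3) = K * L := by rw [hK]; ring
      _ ≤ K * (n : ℝ) ^ τ := by gcongr
  have h9 : (n : ℝ) ^ ((1 + δ) * omega / 3) =
      (n : ℝ) ^ ((1 + δ) * omega / 3 - τ) * (n : ℝ) ^ τ := by
    rw [← Real.rpow_add hn0]; congr 1; ring
  rw [h9] at h8
  have h10 : 0 < (n : ℝ) ^ τ := Real.rpow_pos_of_pos hn0 _
  have h11 : κ * (n : ℝ) ^ ((1 + δ) * omega / 3 - τ) ≤ K := by
    by_contra hc
    push Not at hc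
    have := mul_lt_mul_of_pos_right hc h10
    nlinarith
  rw [div_lt_iff₀ hκ0] at g1
  nlinarith

/-- Linear functions of the product: the exponent is `ω`. -/
theorem exponent_linear {a b : ℕ} (ha : 2 ≤ a) (hb : 1 ≤ b) {ε : ℝ} (hε : 0 < ε) (d : ℕ → ℕ)
    (hd : ∀ᶠ n : ℕ in atTop, ε * (n : ℝ) ^ 2 ≤ d n)
    (ℓ : (n : ℕ) → (Fin n → Fin n → ℝ) →L[ℝ] (Fin (d n) → ℝ))
    (hℓ : ∀ n, Function.Surjective (ℓ n)) :
    sInf {τ : ℝ | ∃ C : ℝ, ∀ n : ℕ, ∃ L : ℕ, SolvesF ℝ n a b L (d n) (ℓ n) ∧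
      (L : ℝ) ≤ C * (n : ℝ) ^ τ} = omega := by
  have hω := two_le_omega
  have hsub : {τ : ℝ | ∃ C : ℝ, ∀ n : ℕ, (rk n : ℝ) ≤ C * (n : ℝ) ^ τ} ⊆
      {τ : ℝ | ∃ C : ℝ, ∀ n : ℕ, ∃ L : ℕ, SolvesF ℝ n a b L (d n) (ℓ n) ∧
        (L : ℝ) ≤ C * (n : ℝ) ^ τ} := by
    rintro τ ⟨C, hC⟩
    refine ⟨4 * C, fun n => ⟨4 * rk n,
      solvesF_of_solves (solves_of_hasRank ha hb (hasRank_rk n)) (ℓ n) (hℓ n), ?_⟩⟩
    push_cast
    have := hC n
    linarith
  have hlow : ∀ τ ∈ {τ : ℝ | ∃ C : ℝ, ∀ n : ℕ, ∃ L : ℕ, SolvesF ℝ n a b L (d n) (ℓ n) ∧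
      (L : ℝ) ≤ C * (n : ℝ) ^ τ}, omega ≤ τ := by
    rintro τ ⟨C, hC⟩
    refine le_of_forall_pos_le_add fun η hη => ?_
    have h1 : (1 + 2) * omega / 3 ≤ τ + η := by
      refine exponent_lower (𝕜 := ℝ) Complex.ofRealHom (a := a) (b := b) (ε := ε) hε (by norm_num)
        fun N => ?_
      have t1 := (tendsto_rpow_atTop (y := η) hη).comp (tendsto_natCast_atTop_atTop (R := ℝ))
      obtain ⟨n, h1, h2, h3, h4⟩ := ((t1.eventually (eventually_ge_atTop C)).and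
        (hd.and ((eventually_ge_atTop N).and (eventually_ge_atTop 1)))).exists
      simp only [Function.comp] at h1
      have hn0 : (0 : ℝ) < n := by exact_mod_cast h4
      obtain ⟨L, hL1, hL2⟩ := hC n
      refine ⟨n, h3, d n, L, ℓ n, hL1, ?_, ?_⟩
      · rw [Real.rpow_two]; exact h2
      · calc (L : ℝ) ≤ C * (n : ℝ) ^ τ := hL2
          _ ≤ (n : ℝ) ^ η * (n : ℝ) ^ τ := by gcongr
          _ = (n : ℝ) ^ (τ + η) := by rw [← Real.rpow_add hn0]; congr 1; ring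
    linarith
  refine le_antisymm ?_ ?_
  · exact csInf_le_csInf ⟨omega, hlow⟩ omega_set_nonempty hsub
  · exact le_csInf (omega_set_nonempty.mono hsub) hlow

end exponents

end Pool.Agent.Y538.Fun
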