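import Pool.Agent.Y538.Fun.Deg
import Pool.Agent.H88R3.MM.Power

/-!
# Flattenings of sums of products, and of the tensor of commutators
-/

set_option autoImplicit false
set_option linter.unusedSectionVars false

namespace Pool.Agent.Y538.Fun

open Finset Pool.Agent.H88R3.MM

variable {𝕜 : Type} [Field 𝕜]

section flat

variable {I K Y Z κ : Type} [Fintype I] [Fintype K] [Fintype Y] [Fintype Z] [Fintype κ] {a b : ℕ}

lemma rank_quad_le (V : Fin a → Y → 𝕜) (C : Fin b → Z → 𝕜) (β : Fin b → Fin a → 𝕜) :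
    (Matrix.of fun (y : Y) (z : Z) => ∑ r, C r z * ∑ i, β r i * V i y).rank ≤ min a b := by
  have e : (Matrix.of fun (y : Y) (z : Z) => ∑ r, C r z * ∑ i, β r i * V i y) =
      (Matrix.of fun (y : Y) (i : Fin a) => V i y) * ((Matrix.of fun (i : Fin a) (r : Fin b) =>
        β r i) * (Matrix.of fun (r : Fin b) (z : Z) => C r z)) := by
    ext y z
    simp only [Matrix.mul_apply, Matrix.of_apply, Finset.mul_sum]
    rw [Finset.sum_comm]
    refine Finset.sum_congr rfl fun i _ => Finset.sum_congr rfl fun r _ => by ring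
  rw [e]
  refine le_min ?_ ?_
  · refine (Matrix.rank_mul_le_left _ _).trans ((Matrix.rank_le_card_width _).trans ?_)
    simp
  · refine (Matrix.rank_mul_le_right _ _).trans ((Matrix.rank_mul_le_right _ _).trans
      ((Matrix.rank_le_card_height _).trans ?_))
    simp

/-- The flattening which splits the first index. -/
theorem flat_le (T : I × K → Y → Z → 𝕜) (X : κ → Fin a → I × K → 𝕜) (V : κ → Fin a → Y → 𝕜)
    (C : κ → Fin b → Z → 𝕜) (β : κ → Fin b → Fin a → Fin a → 𝕜)
    (H : ∀ x y z, T x y z = ∑ s, ∑ r, C s r z * ∑ i, ∑ j, β s r i j * (X s j x * V s i y)) :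
    (Matrix.of fun (ρ : I × Y) (τ : K × Z) => T (ρ.1, τ.1) ρ.2 τ.2).rank ≤
      min a b * ∑ s, ∑ j, (Matrix.of fun (i : I) (k : K) => X s j (i, k)).rank := by
  classical
  have e : (Matrix.of fun (ρ : I × Y) (τ : K × Z) => T (ρ.1, τ.1) ρ.2 τ.2) =
      ∑ s, ∑ j, Matrix.kroneckerMap (fun x y => x * y)
        (Matrix.of fun (i : I) (k : K) => X s j (i, k))
        (Matrix.of fun (y : Y) (z : Z) => ∑ r, C s r z * ∑ i, β s r i j * V s i y) := by
    ext ρ τ
    simp only [Matrix.of_apply, Matrix.sum_apply, Matrix.kroneckerMap_apply]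
    rw [H]
    refine Finset.sum_congr rfl fun s _ => ?_
    simp only [Finset.mul_sum]
    calc ∑ r, ∑ i, ∑ j, C s r τ.2 * (β s r i j * (X s j (ρ.1, τ.1) * V s i ρ.2))
        = ∑ r, ∑ j, ∑ i, C s r τ.2 * (β s r i j * (X s j (ρ.1, τ.1) * V s i ρ.2)) := by
          refine Finset.sum_congr rfl fun r _ => ?_
          rw [Finset.sum_comm]
      _ = ∑ j, ∑ r, ∑ i, C s r τ.2 * (β s r i j * (X s j (ρ.1, τ.1) * V s i ρ.2)) := by
          rw [Finset.sum_comm]
      _ = _ := by
          refine Finset.sum_congr rfl fun j _ => Finset.sum_congr rfl fun r _ =>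
            Finset.sum_congr rfl fun i _ => by ring
  rw [e]
  refine (rank_sum_le _ _).trans ?_
  rw [Finset.mul_sum]
  refine Finset.sum_le_sum fun s _ => (rank_sum_le _ _).trans ?_
  rw [Finset.mul_sum]
  refine Finset.sum_le_sum fun j _ => (rank_kron_le _ _).trans ?_
  rw [mul_comm]
  exact Nat.mul_le_mul_right _ (rank_quad_le _ _ _)

/-- Linearly independent columns. -/
lemma card_le_rank (M : Matrix Y Z 𝕜) (h : ∀ c : Z → 𝕜, (∀ y, ∑ z, c z * M y z = 0) → c = 0) :
    Fintype.card Z ≤ M.rank := by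
  have h1 : LinearIndependent 𝕜 M.transpose.row := by
    rw [Fintype.linearIndependent_iff]
    intro c hc z
    have h2 : c = 0 := by
      apply h
      intro y
      have h3 := congrFun hc y
      simpa [Matrix.row, Finset.sum_apply] using h3
    rw [h2]; rfl
  have h2 := h1.rank_matrix
  rw [Matrix.rank_transpose] at h2
  omega

end flat

section mm

variable {n a b : ℕ} {κ : Type} [Fintype κ]

/-- The product of two matrices: the sum of the ranks. -/
theorem mm_ranks (X V : κ → Fin a → Fin n × Fin n → 𝕜) (C : κ → Fin b → Fin n × Fin n → 𝕜)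
    (β : κ → Fin b → Fin a → Fin a → 𝕜)
    (H : ∀ x y z : Fin n × Fin n, (if x.1 = z.1 ∧ x.2 = y.1 ∧ y.2 = z.2 then (1 : 𝕜) else 0) =
      ∑ s, ∑ r, C s r z * ∑ i, ∑ j, β s r i j * (X s j x * V s i y)) :
    n ^ 3 ≤ min a b * ∑ s, ∑ j, (Matrix.of fun (i k : Fin n) => X s j (i, k)).rank ∧
    n ^ 3 ≤ min a b * ∑ s, ∑ j, (Matrix.of fun (i k : Fin n) => V s j (i, k)).rank := by
  constructor
  · refine le_trans ?_ (flat_le _ X V C β H)
    have h1 : Fintype.card (Fin n × (Fin n × Fin n)) = n ^ 3 := by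
      simp only [Fintype.card_prod, Fintype.card_fin]; ring
    rw [← h1]
    refine card_le_rank _ fun c hc => ?_
    funext ⟨k, p, q⟩
    have h2 := hc (p, k, q)
    simp only [Matrix.of_apply] at h2
    rw [Fintype.sum_eq_single (k, p, q)] at h2
    · simpa using h2
    · rintro ⟨k', p', q'⟩ hne
      have : ¬ (p = p' ∧ k' = k ∧ q = q') := by
        rintro ⟨rfl, rfl, rfl⟩
        exact hne rfl
      simp [this]
  · have H' : ∀ y x z : Fin n × Fin n,
        (fun y x z : Fin n × Fin n => if x.1 = z.1 ∧ x.2 = y.2 ∧ y.1 = z.2 then (1 : 𝕜) else 0)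
          y x z =
        ∑ s, ∑ r, C s r z * ∑ i, ∑ j, β s r j i * (V s j (y.2, y.1) * X s i x) := by
      intro y x z
      beta_reduce
      rw [H x (y.2, y.1) z]
      refine Finset.sum_congr rfl fun s _ => Finset.sum_congr rfl fun r _ => ?_
      congr 1
      rw [Finset.sum_comm]
      refine Finset.sum_congr rfl fun i _ => Finset.sum_congr rfl fun j _ => by ring
    refine le_trans ?_ ((flat_le _ (fun s j y => V s j (y.2, y.1)) X C (fun s r i j => β s r j i)
      H').trans (le_of_eq ?_))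
    · have h1 : Fintype.card (Fin n × (Fin n × Fin n)) = n ^ 3 := by
        simp only [Fintype.card_prod, Fintype.card_fin]; ring
      rw [← h1]
      refine card_le_rank _ fun c hc => ?_
      funext ⟨k, p, q⟩
      have h2 := hc (q, p, k)
      simp only [Matrix.of_apply] at h2
      rw [Fintype.sum_eq_single (k, p, q)] at h2
      · simpa using h2
      · rintro ⟨k', p', q'⟩ hne
        have : ¬ (p = p' ∧ k = k' ∧ q = q') := by
          rintro ⟨rfl, rfl, rfl⟩
          exact hne rfl
        simp [this]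
    · congr 1
      refine Finset.sum_congr rfl fun s _ => Finset.sum_congr rfl fun j _ => ?_
      rw [← Matrix.rank_transpose]
      rfl

/-- Commutators tested against `d` linearly independent forms: the sum of the ranks. -/
theorem comm_ranks {d : ℕ} (w : Fin d → Fin n × Fin n → 𝕜) (hw : LinearIndependent 𝕜 w)
    (X V : κ → Fin a → Fin n × Fin n → 𝕜) (C : Fin d → κ → Fin b → 𝕜)
    (β : κ → Fin b → Fin a → Fin a → 𝕜)
    (H : ∀ (o : Fin d) (x y : Fin n × Fin n),
      ((if x.2 = y.1 then w o (x.1, y.2) else 0) - (if y.2 = x.1 then w o (y.1, x.2) else 0)) =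
        ∑ s, ∑ r, C o s r * ∑ i, ∑ j, β s r i j * (X s j x * V s i y) -
        ∑ s, ∑ r, C o s r * ∑ i, ∑ j, β s r i j * (X s j y * V s i x)) :
    n * (d - n) ≤ 4 * (min a b * ∑ s, ∑ j,
      ((Matrix.of fun (i k : Fin n) => X s j (i, k)).rank +
        (Matrix.of fun (i k : Fin n) => V s j (i, k)).rank)) := by
  classical
  rcases le_or_gt d n with hdn | hdn
  · rw [Nat.sub_eq_zero_of_le hdn, mul_zero]
    exact Nat.zero_le _
  obtain ⟨S, c, hS, hc⟩ := pivots' w hw (fun τ => n * (τ.1 : ℕ) + τ.2)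
  set S1 : Finset (Fin n × Fin n) := S.filter fun z => z.1 ≠ z.2 with hS1
  have hS1c : d - n ≤ S1.card := by
    have h1 : (S.filter fun z => ¬ z.1 ≠ z.2).card ≤ n := by
      calc (S.filter fun z => ¬ z.1 ≠ z.2).card ≤ (univ : Finset (Fin n)).card := by
            refine Finset.card_le_card_of_injOn (fun z => z.1) (fun _ _ => Finset.mem_coe.mpr (Finset.mem_univ _)) ?_
            intro z hz z' hz' h
            have g1 := (Finset.mem_filter.mp (Finset.mem_coe.mp hz)).2
            have g2 := (Finset.mem_filter.mp (Finset.mem_coe.mp hz')).2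
            push Not at g1 g2
            exact Prod.ext h (by rw [← g1, ← g2]; exact h)
        _ = n := by rw [Finset.card_univ, Fintype.card_fin]
    have h2 := Finset.card_filter_add_card_filter_not (s := S) (fun z : Fin n × Fin n => z.1 ≠ z.2)
    rw [← hS1] at h2
    omega
  obtain ⟨I, hI⟩ := exists_cut S1 (fun z hz => (Finset.mem_filter.mp hz).2)
  set S2 : Finset (Fin n × Fin n) := S1.filter fun z => z.1 ∈ I ∧ z.2 ∉ I with hS2
  have hS2c : d - n ≤ 4 * S2.card := hS1c.trans hI
  have hS2S : ∀ z ∈ S2, z ∈ S ∧ z.1 ∈ I ∧ z.2 ∉ I := fun z hz =>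
    ⟨(Finset.mem_filter.mp (Finset.mem_filter.mp hz).1).1, (Finset.mem_filter.mp hz).2⟩
  -- the tensor
  let T : Fin n × Fin n → Fin n × Fin n → S2 → 𝕜 := fun x y z =>
    (if x.1 ∈ I then 1 else 0) * (if y.2 ∉ I then 1 else 0) *
      ∑ o, c z o * ((if x.2 = y.1 then w o (x.1, y.2) else 0) -
        (if y.2 = x.1 then w o (y.1, x.2) else 0))
  have hT : ∀ x y z, T x y z = ∑ s : κ ⊕ κ, ∑ r,
      (Sum.elim (fun s => ∑ o, c z o * C o s r) (fun s => - ∑ o, c z o * C o s r) s) *
      ∑ i, ∑ j, (Sum.elim (fun s => β s r i j) (fun s => β s r j i) s) *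
      (((if x.1 ∈ I then 1 else 0) * Sum.elim (fun s => X s j x) (fun s => V s j x) s) *
        ((if y.2 ∉ I then 1 else 0) * Sum.elim (fun s => V s i y) (fun s => X s i y) s)) := by
    intro x y z
    rw [Fintype.sum_sum_type]
    simp only [Sum.elim_inl, Sum.elim_inr, T]
    have h1 : ∀ (P Q : κ → Fin a → 𝕜), ∑ o, c z o * ∑ s, ∑ r, C o s r *
        ∑ i, ∑ j, β s r i j * (P s j * Q s i) =
        ∑ s, ∑ r, (∑ o, c z o * C o s r) * ∑ i, ∑ j, β s r i j * (P s j * Q s i) := by
      intro P Q
      simp only [Finset.mul_sum, Finset.sum_mul]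
      rw [Finset.sum_comm]
      refine Finset.sum_congr rfl fun s _ => ?_
      rw [Finset.sum_comm]
      refine Finset.sum_congr rfl fun r _ => ?_
      rw [Finset.sum_comm]
      refine Finset.sum_congr rfl fun i _ => ?_
      rw [Finset.sum_comm]
      refine Finset.sum_congr rfl fun j _ => Finset.sum_congr rfl fun o _ => by ring
    have h2 : ∑ o, c z o * ((if x.2 = y.1 then w o (x.1, y.2) else 0) -
          (if y.2 = x.1 then w o (y.1, x.2) else 0)) =
        ∑ s, ∑ r, (∑ o, c z o * C o s r) * ∑ i, ∑ j, β s r i j * (X s j x * V s i y) -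
        ∑ s, ∑ r, (∑ o, c z o * C o s r) * ∑ i, ∑ j, β s r i j * (X s j y * V s i x) := by
      rw [← h1 (fun s j => X s j x) (fun s i => V s i y), ← h1 (fun s j => X s j y)
        (fun s i => V s i x), ← Finset.sum_sub_distrib]
      refine Finset.sum_congr rfl fun o _ => ?_
      rw [H o x y]
      ring
    rw [h2, mul_sub, sub_eq_add_neg]
    generalize (if x.1 ∈ I then (1 : 𝕜) else 0) = A1
    generalize (if y.2 ∉ I then (1 : 𝕜) else 0) = B1
    congr 1
    · rw [Finset.mul_sum]
      refine Finset.sum_congr rfl fun s _ => ?_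
      rw [Finset.mul_sum]
      refine Finset.sum_congr rfl fun r _ => ?_
      simp only [Finset.mul_sum]
      refine Finset.sum_congr rfl fun i _ => Finset.sum_congr rfl fun j _ => by ring
    · rw [Finset.mul_sum, ← Finset.sum_neg_distrib]
      refine Finset.sum_congr rfl fun s _ => ?_
      rw [Finset.mul_sum, ← Finset.sum_neg_distrib]
      refine Finset.sum_congr rfl fun r _ => ?_
      have e3 : ∑ i, ∑ j, β s r j i * ((A1 * V s j x) * (B1 * X s i y)) =
          A1 * B1 * ∑ i, ∑ j, β s r i j * (X s j y * V s i x) := by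
        rw [Finset.sum_comm, Finset.mul_sum]
        refine Finset.sum_congr rfl fun i _ => ?_
        rw [Finset.mul_sum]
        exact Finset.sum_congr rfl fun j _ => by ring
      rw [e3]
      ring
  have hle := flat_le (a := a) (b := b) T
    (fun s j x => (if x.1 ∈ I then 1 else 0) * Sum.elim (fun s => X s j x) (fun s => V s j x) s)
    (fun s i y => (if y.2 ∉ I then 1 else 0) * Sum.elim (fun s => V s i y) (fun s => X s i y) s)
    (fun s r z => (Sum.elim (fun s => ∑ o, c z o * C o s r) (fun s => - ∑ o, c z o * C o s r) s))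
    (fun s r i j => (Sum.elim (fun s => β s r i j) (fun s => β s r j i) s)) hT
  have hsum : ∑ s : κ ⊕ κ, ∑ j, (Matrix.of fun (i k : Fin n) => (if (i, k).1 ∈ I then (1 : 𝕜) else 0) *
      Sum.elim (fun s => X s j (i, k)) (fun s => V s j (i, k)) s).rank ≤
      ∑ s, ∑ j, ((Matrix.of fun (i k : Fin n) => X s j (i, k)).rank +
        (Matrix.of fun (i k : Fin n) => V s j (i, k)).rank) := by
    rw [Fintype.sum_sum_type, ← Finset.sum_add_distrib]
    refine Finset.sum_le_sum fun s _ => ?_
    rw [← Finset.sum_add_distrib]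
    refine Finset.sum_le_sum fun j _ => ?_
    simp only [Sum.elim_inl, Sum.elim_inr]
    refine Nat.add_le_add ?_ ?_
    · have := rank_scaled (Matrix.of fun (i k : Fin n) => X s j (i, k))
        (fun i => if i ∈ I then (1 : 𝕜) else 0) (fun _ => 1) id id
      simpa using this
    · have := rank_scaled (Matrix.of fun (i k : Fin n) => V s j (i, k))
        (fun i => if i ∈ I then (1 : 𝕜) else 0) (fun _ => 1) id id
      simpa using this
  have hlow : n * S2.card ≤ (Matrix.of fun (ρ : Fin n × (Fin n × Fin n)) (τ : Fin n × S2) =>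
      T (ρ.1, τ.1) ρ.2 τ.2).rank := by
    have h1 : Fintype.card (Fin n × S2) = n * S2.card := by
      simp only [Fintype.card_prod, Fintype.card_fin, Fintype.card_coe]
    rw [← h1]
    refine card_le_rank _ fun e he => ?_
    -- for each `k` the coefficients vanish
    have h2 : ∀ k : Fin n, ∀ σ : S2, ∑ z : S2, e (k, z) * ∑ o, c z o * w o σ = 0 := by
      intro k σ
      obtain ⟨g1, g2, g3⟩ := hS2S σ σ.2
      have h3 := he ((σ : Fin n × Fin n).1, (k, (σ : Fin n × Fin n).2))
      rw [Fintype.sum_prod_type, Fintype.sum_eq_single k] at h3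
      · rw [← h3]
        refine Finset.sum_congr rfl fun z _ => ?_
        have g4 : ¬ (σ : Fin n × Fin n).2 = (σ : Fin n × Fin n).1 := fun h => g3 (h ▸ g2)
        simp only [Matrix.of_apply, T, g2, g3, g4, if_true, not_false_eq_true, if_false, sub_zero,
          one_mul, Prod.mk.eta]
      · intro k' hk'
        refine Finset.sum_eq_zero fun z _ => ?_
        have g4 : ¬ (σ : Fin n × Fin n).2 = (σ : Fin n × Fin n).1 := fun h => g3 (h ▸ g2)
        simp only [Matrix.of_apply, T, hk', g4, if_false, sub_zero, mul_zero,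
          Finset.sum_const_zero]
    funext ⟨k, z0⟩
    by_contra hne
    -- a coefficient of smallest weight
    obtain ⟨z1, hz1, hmin⟩ := Finset.exists_min_image
      (univ.filter fun z : S2 => e (k, z) ≠ 0)
      (fun z => n * ((z : Fin n × Fin n).1 : ℕ) + (z : Fin n × Fin n).2)
      ⟨z0, Finset.mem_filter.mpr ⟨Finset.mem_univ _, hne⟩⟩
    have h3 := h2 k z1
    rw [Fintype.sum_eq_single z1] at h3
    · rw [(hc z1 (hS2S z1 z1.2).1).1, mul_one] at h3
      exact (Finset.mem_filter.mp hz1).2 h3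
    · intro z hz
      by_cases hz0 : e (k, z) = 0
      · rw [hz0, zero_mul]
      · have h4 := hmin z (Finset.mem_filter.mpr ⟨Finset.mem_univ _, hz0⟩)
        have h5 : n * ((z1 : Fin n × Fin n).1 : ℕ) + (z1 : Fin n × Fin n).2 ≠
            n * ((z : Fin n × Fin n).1 : ℕ) + (z : Fin n × Fin n).2 := fun h =>
          hz (Subtype.ext (wt_inj h).symm)
        have h6 := (hc z (hS2S z z.2).1).2 z1 (by omega)
        rw [h6, mul_zero]
  calc n * (d - n) ≤ n * (4 * S2.card) := Nat.mul_le_mul_left n hS2c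
    _ = 4 * (n * S2.card) := by ring
    _ ≤ _ := Nat.mul_le_mul_left 4 (hlow.trans (hle.trans (Nat.mul_le_mul_left _ hsum)))

end mm

end Pool.Agent.Y538.Fun
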