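import Pool.Agent.Y538.Fun.GradDefs
import Pool.Agent.Y538.Fun.Flat
import Pool.Agent.Y538.Fun.Final

/-!
# Ranks of the derivatives of the inputs of the gates: the lower bounds
-/

set_option autoImplicit false
set_option linter.unusedSectionVars false

namespace Pool.Agent.Y538.Fun

open Topology Filter Finset Pool.Agent.Y538.Net Pool.Agent.H88R3.MM

section net

variable {𝕜 : Type} [NontriviallyNormedField 𝕜] {n a b L d : ℕ}

lemma isNetF_of_netU {D : Set (Pairs 𝕜 n)} {u : ℕ → Fin a → Pairs 𝕜 n → 𝕜}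
    {g : ℕ → Fin b → Pairs 𝕜 n → 𝕜} (h : NetU a b L D u g) : IsNetF a b L D g := by
  refine ⟨h.1, fun l hl => ?_⟩
  obtain ⟨h1, φ, h2⟩ := h.2 l hl
  exact ⟨u l, φ, h1, h2⟩

/-- The mixed quadratic terms contributed by the gates. -/
lemma netU_hess {D : Set (Pairs 𝕜 n)} {u : ℕ → Fin a → Pairs 𝕜 n → 𝕜}
    {g : ℕ → Fin b → Pairs 𝕜 n → 𝕜} (hnet : NetU a b L D u g) {x : Pairs 𝕜 n} (hx : x ∈ D) :
    ∃ (β : ℕ → Fin b → Fin a → Fin a → 𝕜),
      ∀ f ∈ Free D g L, ∃ C : ℕ → Fin b → 𝕜, ∀ h k, H2 f x (h, 0) (0, k) =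
        ∑ s ∈ Finset.range L, ∑ o, C s o * ∑ i, ∑ j, β s o i j *
          (fderiv 𝕜 (u s j) x (h, 0) * fderiv 𝕜 (u s i) x (0, k)) := by
  classical
  -- the data of the gates
  have hgd := gatesF_contDiff (isNetF_of_netU hnet) hx
  have hu : ∀ s, s < L → (∀ i, u s i ∈ Free D g s) ∧
      ∀ o, ∃ (c : Fin a → 𝕜) (β : Fin a → Fin a → 𝕜), ∀ h1 h2 : Pairs 𝕜 n,
        H2 (g s o) x h1 h2 = ∑ i, c i * H2 (u s i) x h1 h2 +
          ∑ i, ∑ j, β i j * (fderiv 𝕜 (u s j) x h1 * fderiv 𝕜 (u s i) x h2) := by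
    intro s hs
    obtain ⟨hu, φ, hφ⟩ := hnet.2 s hs
    refine ⟨hu, fun o => ?_⟩
    have h1 : ∀ i, ContDiffAt 𝕜 2 (u s i) x := fun i =>
      free_contDiff hx (fun s' hs' o' => hgd s' (hs'.trans hs) o') _ (hu i)
    have h2 : ContDiffAt 𝕜 2 (fun y => φ y o) (fun i => u s i x) :=
      (contDiffAt_pi.mp (hφ x hx).1) o
    obtain ⟨c, β, h⟩ := H2_comp h1 h2
    refine ⟨c, β, fun h1 h2 => ?_⟩
    rw [← h]
    have h3 : g s o =ᶠ[𝓝 x] fun y => φ (fun i => u s i y) o := by
      filter_upwards [hnet.1.mem_nhds hx] with y hy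
      exact (hφ y hy).2 o
    rw [H2_congr h3]
  have hdata2 : ∀ s o, ∃ (c : Fin a → 𝕜) (β : Fin a → Fin a → 𝕜), s < L → ∀ h1 h2 : Pairs 𝕜 n,
        H2 (g s o) x h1 h2 = ∑ i, c i * H2 (u s i) x h1 h2 +
          ∑ i, ∑ j, β i j * (fderiv 𝕜 (u s j) x h1 * fderiv 𝕜 (u s i) x h2) := by
    intro s o
    by_cases hs : s < L
    · obtain ⟨c, β, h⟩ := (hu s hs).2 o
      exact ⟨c, β, fun _ => h⟩
    · exact ⟨0, 0, fun h => absurd h hs⟩
  choose c β hβ using hdata2
  refine ⟨β, ?_⟩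
  -- the span of the quadratic terms
  let M := Fin n → Fin n → 𝕜
  let q : ℕ → Fin b → (M → M → 𝕜) := fun s o h k =>
    ∑ i, ∑ j, β s o i j * (fderiv 𝕜 (u s j) x (h, 0) * fderiv 𝕜 (u s i) x (0, k))
  let Q : ℕ → Submodule 𝕜 (M → M → 𝕜) := fun l => Submodule.span 𝕜 {f | ∃ s < l, ∃ o, f = q s o}
  have hQmono : ∀ {l l' : ℕ}, l ≤ l' → Q l ≤ Q l' := fun h =>
    Submodule.span_mono fun f ⟨s, hs, o, e⟩ => ⟨s, by omega, o, e⟩
  have hstep : ∀ l ≤ L, (∀ s < l, ∀ o, (fun h k => H2 (g s o) x (h, 0) (0, k)) ∈ Q l) →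
      ∀ f ∈ Free D g l, (fun h k => H2 f x (h, 0) (0, k)) ∈ Q l := by
    intro l hl hgates f hf
    have hcd := free_contDiff (D := D) hx (l := l) (g := g)
      (fun s hs o => hgd s (by omega) o)
    unfold Free at hf
    induction hf using Submodule.span_induction with
    | mem f hf =>
      rcases hf with ⟨φ, hφ, rfl⟩ | ⟨φ, hφ, rfl⟩ | ⟨s, hs, o, rfl⟩
      · have : (fun h k => H2 (fun y : Pairs 𝕜 n => φ y.1) x (h, 0) (0, k)) = (0 : M → M → 𝕜) := by
          funext h k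
          rw [mixed_fst (hφ x hx)]
          rfl
        rw [this]
        exact Submodule.zero_mem _
      · have : (fun h k => H2 (fun y : Pairs 𝕜 n => φ y.2) x (h, 0) (0, k)) = (0 : M → M → 𝕜) := by
          funext h k
          rw [mixed_snd (hφ x hx)]
          rfl
        rw [this]
        exact Submodule.zero_mem _
      · exact hgates s hs o
    | zero =>
      have : H2 (0 : Pairs 𝕜 n → 𝕜) x = 0 := by
        have h := H2_affine (E := Pairs 𝕜 n) (0 : Pairs 𝕜 n →L[𝕜] 𝕜) 0 x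
        have e : (fun y : Pairs 𝕜 n => (0 : Pairs 𝕜 n →L[𝕜] 𝕜) y + 0) = (0 : Pairs 𝕜 n → 𝕜) := by
          funext y; simp
        rw [e] at h
        exact h
      rw [this]
      exact Submodule.zero_mem _
    | add f f' h1 h2 h h' =>
      rw [H2_add (hcd f h1) (hcd f' h2)]
      exact Submodule.add_mem _ h h'
    | smul c f h1 h =>
      rw [H2_smul c (hcd f h1)]
      exact Submodule.smul_mem _ c h
  have hgates : ∀ s < L, ∀ o, (fun h k => H2 (g s o) x (h, 0) (0, k)) ∈ Q (s + 1) := by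
    intro s
    induction s using Nat.strong_induction_on with
    | _ s ih =>
      intro hs o
      have h1 : ∀ i, (fun h k => H2 (u s i) x (h, 0) (0, k)) ∈ Q s := by
        intro i
        refine hstep s hs.le (fun s' hs' o' => ?_) _ ((hu s hs).1 i)
        exact hQmono (by omega) (ih s' hs' (by omega) o')
      have h2 : (fun h k => H2 (g s o) x (h, 0) (0, k)) =
          ∑ i, c s o i • (fun h k => H2 (u s i) x (h, 0) (0, k)) + q s o := by
        funext h1 h2
        rw [hβ s o hs (h1, 0) (0, h2)]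
        simp only [Pi.add_apply, Finset.sum_apply, Pi.smul_apply, smul_eq_mul, q]
      rw [h2]
      refine Submodule.add_mem _ (Submodule.sum_mem _ fun i _ =>
        Submodule.smul_mem _ _ (hQmono (Nat.le_succ s) (h1 i))) ?_
      exact Submodule.subset_span ⟨s, Nat.lt_succ_self s, o, rfl⟩
  intro f hf
  have hf1 : (fun h k => H2 f x (h, 0) (0, k)) ∈ Q L :=
    hstep L le_rfl (fun s hs o => hQmono (by omega) (hgates s hs o)) f hf
  -- extraction of coefficients
  have hrep : ∀ F ∈ Q L, ∃ C : ℕ → Fin b → 𝕜, F = ∑ s ∈ Finset.range L, ∑ o, C s o • q s o := by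
    intro F hF
    induction hF using Submodule.span_induction with
    | mem F hF =>
      obtain ⟨s, hs, o, rfl⟩ := hF
      refine ⟨fun s' o' => if s' = s ∧ o' = o then 1 else 0, ?_⟩
      rw [Finset.sum_eq_single s, Finset.sum_eq_single o]
      · simp
      · intro o' _ ho'; simp [ho']
      · simp
      · intro s' _ hs'; simp [hs']
      · intro h; exact absurd (Finset.mem_range.mpr hs) h
    | zero => exact ⟨0, by simp⟩
    | add F F' _ _ hF hF' =>
      obtain ⟨C, rfl⟩ := hF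
      obtain ⟨C', rfl⟩ := hF'
      exact ⟨C + C', by simp only [Pi.add_apply, add_smul, Finset.sum_add_distrib]⟩
    | smul c F _ hF =>
      obtain ⟨C, rfl⟩ := hF
      exact ⟨c • C, by simp only [Pi.smul_apply, smul_assoc, Finset.smul_sum]⟩
  obtain ⟨C, hC⟩ := hrep _ hf1
  refine ⟨C, fun h k => ?_⟩
  have := congrFun (congrFun hC h) k
  rw [this]
  simp only [Finset.sum_apply, Pi.smul_apply, smul_eq_mul, q]

lemma nowhere {X : Type*} [TopologicalSpace X] (Z : Set X) :
    IsNowhereDense (Z \ interior (closure Z)) := by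
  unfold IsNowhereDense
  have h1 : closure (Z \ interior (closure Z)) ⊆ closure Z \ interior (closure Z) :=
    closure_minimal (Set.sdiff_subset_sdiff_left subset_closure)
      (isClosed_closure.sdiff isOpen_interior)
  refine Set.eq_empty_of_subset_empty fun x hx => ?_
  have h2 := interior_mono h1 hx
  have h3 : x ∈ interior (closure Z) := interior_mono Set.sdiff_subset h2
  exact (interior_subset h2).2 h3

/-- In the interior of the closure of the set where the network is right it is right nearby. -/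
lemma right_nearby {ι : Type} {Φ : (Fin n → Fin n → 𝕜) → ι → 𝕜}
    {D : Set (Pairs 𝕜 n)} {g : ℕ → Fin b → Pairs 𝕜 n → 𝕜} {F : ι → Pairs 𝕜 n → 𝕜}
    (hnet : IsNetF a b L D g) (hF : ∀ o, F o ∈ Free D g L) {x : Pairs 𝕜 n} (hxD : x ∈ D)
    (hΦ : ∀ o, ∀ᶠ C in 𝓝 (mm x), ContinuousAt (fun C => Φ C o) C)
    (hx : x ∈ interior (closure {y : Pairs 𝕜 n | ∀ o, F o y = Φ (mm y) o})) :
    ∀ o, ∀ᶠ y in 𝓝 x, F o y = Φ (mm y) o := by
  intro o
  have hev : ∀ᶠ z in 𝓝 x, ContinuousAt (fun C => Φ C o) (mm z) :=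
    (contDiff_mm.continuous.continuousAt (x := x)).eventually (hΦ o)
  filter_upwards [isOpen_interior.mem_nhds hx, hnet.1.mem_nhds hxD, hev] with z hz1 hz2 hz3'
  have hz3 := interior_subset hz1
  have hcont2 : ContinuousAt (fun y : Pairs 𝕜 n => Φ (mm y) o) z :=
    ContinuousAt.comp (g := fun C => Φ C o) hz3' contDiff_mm.continuous.continuousAt
  have : NeBot (𝓝[{y : Pairs 𝕜 n | ∀ o, F o y = Φ (mm y) o}] z) :=
    mem_closure_iff_nhdsWithin_neBot.mp hz3
  have t1 : Tendsto (F o) (𝓝[{y : Pairs 𝕜 n | ∀ o, F o y = Φ (mm y) o}] z) (𝓝 (F o z)) :=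
    ((free_contDiff hz2 (gatesF_contDiff hnet hz2) _ (hF o)).continuousAt).mono_left
      nhdsWithin_le_nhds
  have t2 : Tendsto (F o) (𝓝[{y : Pairs 𝕜 n | ∀ o, F o y = Φ (mm y) o}] z)
      (𝓝 (Φ (mm z) o)) := by
    refine (hcont2.mono_left nhdsWithin_le_nhds).congr' ?_
    filter_upwards [self_mem_nhdsWithin] with y hy
    exact (hy o).symm
  exact tendsto_nhds_unique t1 t2

/-- A matrix of values of a linear function. -/
lemma lin_fn (ℓ : (Fin n → Fin n → 𝕜) →L[𝕜] 𝕜) (M : Matrix (Fin n) (Fin n) 𝕜) :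
    ℓ (fn M) = ∑ k, ∑ l, M k l * ℓ (mu k l) := by
  conv_lhs => rw [sum_single_fun (fn M)]
  simp only [map_sum, map_smul, smul_eq_mul]
  rfl

/-- **The product: gradients.** -/
theorem product_point {D : Set (Pairs 𝕜 n)} {u : ℕ → Fin a → Pairs 𝕜 n → 𝕜}
    {g : ℕ → Fin b → Pairs 𝕜 n → 𝕜} {F : Fin n → Fin n → Pairs 𝕜 n → 𝕜}
    (hnet : NetU a b L D u g) (hF : ∀ i j, F i j ∈ Free D g L) {x : Pairs 𝕜 n} (hx : x ∈ D)
    (hright : ∀ z : Fin n × Fin n, ∀ᶠ y in 𝓝 x, F z.1 z.2 y = mm y z.1 z.2) :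
    n ^ 3 ≤ min a b * ∑ l ∈ range L, ∑ i, rkA (u l i) x ∧
    n ^ 3 ≤ min a b * ∑ l ∈ range L, ∑ i, rkB (u l i) x := by
  obtain ⟨β, hβ⟩ := netU_hess hnet hx
  choose C hC using fun z : Fin n × Fin n => hβ (F z.1 z.2) (hF z.1 z.2)
  have h := mm_ranks (κ := Fin L) (fun s j τ => fderiv 𝕜 (u s j) x (mu τ.1 τ.2, 0))
    (fun s i τ => fderiv 𝕜 (u s i) x (0, mu τ.1 τ.2)) (fun s r z => C z s r)
    (fun s => β s) (fun p q z => by
      have h1 := hC z (mu p.1 p.2) (mu q.1 q.2)
      rw [Finset.sum_range] at h1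
      rw [← h1]
      have h2 : F z.1 z.2 =ᶠ[𝓝 x] fun y : Pairs 𝕜 n => (fun C : Fin n → Fin n → 𝕜 => C z.1 z.2)
          (mm y) := hright z
      let ℓ : (Fin n → Fin n → 𝕜) →L[𝕜] 𝕜 := (ContinuousLinearMap.proj z.2).comp
        (ContinuousLinearMap.proj (R := 𝕜) (φ := fun _ : Fin n => Fin n → 𝕜) z.1)
      have h3 : (fun C : Fin n → Fin n → 𝕜 => C z.1 z.2) = ℓ := rfl
      rw [H2_congr h2, h3, mixed_mm (φ := ℓ) ℓ.contDiff.contDiffAt]
      have h4 : fderiv 𝕜 (ℓ : (Fin n → Fin n → 𝕜) → 𝕜) = fun _ => ℓ := by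
        funext C; exact ℓ.fderiv
      rw [h4, fderiv_const_apply]
      have h5 : ℓ (mm ((mu p.1 p.2, mu q.1 q.2) : Pairs 𝕜 n)) =
          mm ((mu p.1 p.2, mu q.1 q.2) : Pairs 𝕜 n) z.1 z.2 := rfl
      rw [h5]
      simp only [_root_.zero_apply, add_zero, mm, mu]
      by_cases g1 : p.1 = z.1
      · by_cases g2 : p.2 = q.1
        · rw [Fintype.sum_eq_single p.2]
          · by_cases g3 : q.2 = z.2
            · simp [g1, g2, g3]
            · have g3' : ¬ z.2 = q.2 := fun h => g3 h.symm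
              simp [g3, g3']
          · intro k hk
            simp [hk]
        · rw [if_neg (fun h => g2 h.2.1)]
          refine (Finset.sum_eq_zero fun k _ => ?_).symm
          by_cases hk : k = p.2
          · subst hk
            simp [g2]
          · simp [hk]
      · have g1' : ¬ z.1 = p.1 := fun h => g1 h.symm
        simp [g1, g1'])
  rw [Finset.sum_range, Finset.sum_range]
  exact h

end net

section comm

variable {𝕜 : Type} [RCLike 𝕜] {n a b L d : ℕ}

/-- **Functions of the product: gradients.** -/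
theorem function_point {Φ : (Fin n → Fin n → 𝕜) → Fin d → 𝕜} {D : Set (Pairs 𝕜 n)}
    {u : ℕ → Fin a → Pairs 𝕜 n → 𝕜} {g : ℕ → Fin b → Pairs 𝕜 n → 𝕜} {F : Fin d → Pairs 𝕜 n → 𝕜}
    (hnet : NetU a b L D u g) (hF : ∀ o, F o ∈ Free D g L) {x0 : Pairs 𝕜 n} (hx : x0 ∈ D)
    (hΦ : ContDiffAt 𝕜 2 Φ (mm x0)) (hsurj : Function.Surjective (fderiv 𝕜 Φ (mm x0)))
    (hA' : (Matrix.of x0.1).det ≠ 0) (hB' : (Matrix.of x0.2).det ≠ 0)
    (hright : ∀ o, ∀ᶠ y in 𝓝 x0, F o y = Φ (mm y) o) :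
    n * (d - n) ≤ 4 * (min a b * ∑ l ∈ range L, ∑ i, (rkA (u l i) x0 + rkB (u l i) x0)) := by
  classical
  obtain ⟨β, hβ⟩ := netU_hess hnet hx
  choose C hC using fun o => hβ (F o) (hF o)
  obtain ⟨A0, hA0⟩ : ∃ A0 : Matrix (Fin n) (Fin n) 𝕜, A0 = Matrix.of x0.1 := ⟨_, rfl⟩
  obtain ⟨B0, hB0⟩ : ∃ B0 : Matrix (Fin n) (Fin n) 𝕜, B0 = Matrix.of x0.2 := ⟨_, rfl⟩
  have hA : A0.det ≠ 0 := by rw [hA0]; exact hA'
  have hB : B0.det ≠ 0 := by rw [hB0]; exact hB'
  have hx1 : x0.1 = fn A0 := by rw [hA0]; rfl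
  have hx2 : x0.2 = fn B0 := by rw [hB0]; rfl
  have hx0 : x0 = (fn A0, fn B0) := Prod.ext hx1 hx2
  have hAu : IsUnit A0.det := isUnit_iff_ne_zero.mpr hA
  have hCu : IsUnit (A0 * B0).det := by
    rw [Matrix.det_mul]
    exact isUnit_iff_ne_zero.mpr (mul_ne_zero hA hB)
  have hφ : ∀ o, ContDiffAt 𝕜 2 (fun C => Φ C o) (mm x0) := fun o => contDiffAt_pi.mp hΦ o
  let E : Fin n × Fin n → Matrix (Fin n) (Fin n) 𝕜 := fun τ => Matrix.single τ.1 τ.2 1
  have hE : ∀ x y : Fin n × Fin n, E x * E y = if x.2 = y.1 then E (x.1, y.2) else 0 := by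
    intro x y
    simp only [E]
    by_cases hxy : x.2 = y.1
    · rw [if_pos hxy, hxy, Matrix.single_mul_single_same, mul_one]
    · rw [if_neg hxy, Matrix.single_mul_single_of_ne _ _ _ _ hxy]
  -- the second derivative in the directions `P A`, `A⁻¹ Q A B`
  have key : ∀ (o : Fin d) (P Q : Matrix (Fin n) (Fin n) 𝕜),
      ∑ s ∈ range L, ∑ r, C o s r * ∑ i, ∑ j, β s r i j *
        (fderiv 𝕜 (u s j) x0 (fn (P * A0), 0) *
          fderiv 𝕜 (u s i) x0 (0, fn (A0⁻¹ * Q * (A0 * B0)))) =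
      fderiv 𝕜 (fun C => Φ C o) (mm x0) (fn (P * Q * (A0 * B0))) +
        fderiv 𝕜 (fderiv 𝕜 (fun C => Φ C o)) (mm x0) (fn (P * (A0 * B0)))
          (fn (Q * (A0 * B0))) := by
    intro o P Q
    rw [← hC o]
    have h2 : F o =ᶠ[𝓝 x0] fun y : Pairs 𝕜 n => Φ (mm y) o := hright o
    rw [H2_congr h2, mixed_mm (φ := fun C => Φ C o) (hφ o)]
    have e1 : mm ((fn (P * A0), fn (A0⁻¹ * Q * (A0 * B0))) : Pairs 𝕜 n) =
        fn (P * Q * (A0 * B0)) := by
      rw [mm_fn]
      congr 1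
      calc P * A0 * (A0⁻¹ * Q * (A0 * B0)) = P * (A0 * A0⁻¹) * Q * (A0 * B0) := by
            simp only [Matrix.mul_assoc]
        _ = _ := by rw [Matrix.mul_nonsing_inv _ hAu, Matrix.mul_one]
    have e2 : mm ((fn (P * A0), x0.2) : Pairs 𝕜 n) = fn (P * (A0 * B0)) := by
      rw [hx2, mm_fn, Matrix.mul_assoc]
    have e3 : mm ((x0.1, fn (A0⁻¹ * Q * (A0 * B0))) : Pairs 𝕜 n) = fn (Q * (A0 * B0)) := by
      rw [hx1, mm_fn]
      congr 1
      calc A0 * (A0⁻¹ * Q * (A0 * B0)) = (A0 * A0⁻¹) * Q * (A0 * B0) := by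
            simp only [Matrix.mul_assoc]
        _ = _ := by rw [Matrix.mul_nonsing_inv _ hAu, Matrix.one_mul]
    rw [e1, e2, e3]
  have hsymm : ∀ o M N, fderiv 𝕜 (fderiv 𝕜 (fun C => Φ C o)) (mm x0) M N =
      fderiv 𝕜 (fderiv 𝕜 (fun C => Φ C o)) (mm x0) N M := by
    intro o M N
    exact ((hφ o).isSymmSndFDerivAt (by simp)) M N
  have hlin : ∀ o, ∀ x y : Fin n × Fin n,
      fderiv 𝕜 (fun C => Φ C o) (mm x0) (fn (E x * E y * (A0 * B0))) =
        if x.2 = y.1 then fderiv 𝕜 (fun C => Φ C o) (mm x0) (fn (E (x.1, y.2) * (A0 * B0))) else 0 := by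
    intro o x y
    rw [hE]
    split_ifs
    · rfl
    · rw [Matrix.zero_mul]
      exact map_zero _
  have hind : LinearIndependent 𝕜 (fun (o : Fin d) (τ : Fin n × Fin n) =>
      fderiv 𝕜 (fun C => Φ C o) (mm x0) (fn (E τ * (A0 * B0)))) := by
    rw [Fintype.linearIndependent_iff]
    intro c hc o
    -- the functional vanishes
    have h1 : ∀ M : Matrix (Fin n) (Fin n) 𝕜,
        ∑ o, c o * fderiv 𝕜 Φ (mm x0) (fn (M * (A0 * B0))) o = 0 := by
      intro M
      have h2 : M = ∑ i, ∑ j, M i j • E (i, j) := by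
        conv_lhs => rw [Matrix.matrix_eq_sum_single M]
        refine Finset.sum_congr rfl fun i _ => Finset.sum_congr rfl fun j _ => ?_
        simp [E]
      have h3 : fn (M * (A0 * B0)) = ∑ i, ∑ j, M i j • fn (E (i, j) * (A0 * B0)) := by
        funext k l
        have h4 : (M * (A0 * B0)) = ∑ i, ∑ j, M i j • (E (i, j) * (A0 * B0)) := by
          conv_lhs => rw [h2]
          simp only [Matrix.sum_mul, Matrix.smul_mul]
        simp only [fn, Finset.sum_apply, Pi.smul_apply]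
        rw [h4]
        simp only [Matrix.sum_apply, Matrix.smul_apply]
      rw [h3]
      simp only [map_sum, map_smul, Finset.sum_apply, Pi.smul_apply, smul_eq_mul, Finset.mul_sum]
      rw [Finset.sum_comm]
      refine Finset.sum_eq_zero fun i _ => ?_
      rw [Finset.sum_comm]
      refine Finset.sum_eq_zero fun j _ => ?_
      have h5 := congrFun hc (i, j)
      simp only [Finset.sum_apply, Pi.smul_apply, smul_eq_mul, Pi.zero_apply] at h5
      have h6 : ∑ o, c o * (M i j * fderiv 𝕜 Φ (mm x0) (fn (E (i, j) * (A0 * B0))) o) =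
          M i j * ∑ o, c o * fderiv 𝕜 (fun C => Φ C o) (mm x0) (fn (E (i, j) * (A0 * B0))) := by
        rw [Finset.mul_sum]
        refine Finset.sum_congr rfl fun o _ => ?_
        rw [fderiv_coord (diff1 hΦ)]
        ring
      rw [h6, h5, mul_zero]
    obtain ⟨N, hN⟩ := hsurj (Pi.single o 1)
    have h2 := h1 (Matrix.of N * (A0 * B0)⁻¹)
    rw [Matrix.mul_assoc, Matrix.nonsing_inv_mul _ hCu, Matrix.mul_one] at h2
    have h3 : fn (Matrix.of N) = N := rfl
    rw [h3, hN] at h2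
    simpa [Pi.single_apply] using h2
  have h := comm_ranks (κ := Fin L) (a := a) (b := b) _ hind
    (fun s j τ => fderiv 𝕜 (u s j) x0 (fn (E τ * A0), 0))
    (fun s i τ => fderiv 𝕜 (u s i) x0 (0, fn (A0⁻¹ * E τ * (A0 * B0))))
    (fun o s r => C o s r) (fun s => β s) (fun o x y => by
      have k1 := key o (E x) (E y)
      have k2 := key o (E y) (E x)
      rw [Finset.sum_range] at k1 k2
      rw [k1, k2, hsymm o (fn (E x * (A0 * B0))), hlin, hlin]
      ring)
  refine h.trans (Nat.mul_le_mul_left 4 (Nat.mul_le_mul_left _ ?_))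
  obtain ⟨G, hG⟩ : ∃ G, G = A0 * B0 := ⟨_, rfl⟩
  rw [Finset.sum_range]
  refine Finset.sum_le_sum fun s _ => Finset.sum_le_sum fun j _ => Nat.add_le_add ?_ ?_
  · -- `X = R A₀ᵀ`
    have e : (Matrix.of fun i k : Fin n => fderiv 𝕜 (u s j) x0 (fn (E (i, k) * A0), 0)) =
        (Matrix.of fun i j' : Fin n => fderiv 𝕜 (u s j) x0
          (fun k l => if k = i ∧ l = j' then 1 else 0, 0)) * A0.transpose := by
      ext i k
      have h1 := lin_fn ((fderiv 𝕜 (u s j) x0).comp (ContinuousLinearMap.inl 𝕜 _ _))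
        (E (i, k) * A0)
      simp only [ContinuousLinearMap.comp_apply, ContinuousLinearMap.inl_apply] at h1
      rw [Matrix.of_apply, h1, Fintype.sum_eq_single i, Matrix.mul_apply]
      · refine Finset.sum_congr rfl fun l _ => ?_
        rw [Matrix.of_apply, Matrix.transpose_apply, mul_comm]
        congr 1
        simp [E]
      · intro p hp
        refine Finset.sum_eq_zero fun l _ => ?_
        have : (E (i, k) * A0) p l = 0 := by
          rw [Matrix.mul_apply]
          refine Finset.sum_eq_zero fun q _ => ?_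
          have hp' : ¬ i = p := fun h => hp h.symm
          simp [E, hp']
        rw [this, zero_mul]
    rw [e]
    exact Matrix.rank_mul_le_left _ _
  · rw [← hG]
    have e : (Matrix.of fun i k : Fin n => fderiv 𝕜 (u s j) x0
        (0, fn (A0⁻¹ * E (i, k) * G))) =
        (A0⁻¹).transpose * (Matrix.of fun i j' : Fin n => fderiv 𝕜 (u s j) x0
          (0, fun k l => if k = i ∧ l = j' then 1 else 0)) * G.transpose := by
      ext i k
      have h1 := lin_fn ((fderiv 𝕜 (u s j) x0).comp (ContinuousLinearMap.inr 𝕜 _ _))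
        (A0⁻¹ * E (i, k) * G)
      simp only [ContinuousLinearMap.comp_apply, ContinuousLinearMap.inr_apply] at h1
      rw [Matrix.of_apply, h1]
      have e2 : ∀ p l, (A0⁻¹ * E (i, k) * G) p l = A0⁻¹ p i * G k l := by
        intro p l
        rw [Matrix.mul_apply, Finset.sum_eq_single k]
        · congr 1
          rw [Matrix.mul_apply, Finset.sum_eq_single i]
          · simp [E]
          · intro q _ hq
            have hq' : ¬ i = q := fun h => hq h.symm
            simp [E, hq']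
          · simp
        · intro q _ hq
          have : (A0⁻¹ * E (i, k)) p q = 0 := by
            rw [Matrix.mul_apply]
            refine Finset.sum_eq_zero fun q' _ => ?_
            have hq' : ¬ k = q := fun h => hq h.symm
            simp [E, hq']
          rw [this, zero_mul]
        · simp
      simp only [e2]
      rw [Matrix.mul_apply, Finset.sum_comm]
      refine Finset.sum_congr rfl fun l _ => ?_
      rw [Matrix.mul_apply, Finset.sum_mul]
      refine Finset.sum_congr rfl fun p _ => ?_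
      rw [Matrix.transpose_apply, Matrix.transpose_apply, Matrix.of_apply]
      have e3 : (mu p l : Fin n → Fin n → 𝕜) = fun k l' => if k = p ∧ l' = l then 1 else 0 := rfl
      rw [e3]
      ring
    rw [e]
    exact (Matrix.rank_mul_le_left _ _).trans (Matrix.rank_mul_le_right _ _)

end comm

end Pool.Agent.Y538.Fun
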