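import Pool.Agent.Y538.Net.Blocks
import Pool.Agent.Y538.Par.Mix

/-!
# Matrix multiplication with a prescribed set of output positions
-/

set_option autoImplicit false
set_option linter.unusedSectionVars false

namespace Pool.Agent.Y538.Fun

open Finset Filter Pool.Agent.H515R2.MMR Pool.Agent.W329.AR Pool.Agent.Y538.Net
open Pool.Agent.Y538.Par (le_of_pow_le_poly two_le_omega lag)

section closure

variable {α β γ α' β' γ' : Type*}

lemma trace_smul3 {P Q S : Type} [Fintype P] [Fintype Q] [Fintype S] (a b c : ℂ)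
    (L : Matrix P Q ℂ) (M : Matrix Q S ℂ) (N : Matrix S P ℂ) :
    Matrix.trace ((a • L) * (b • M) * (c • N)) = a * b * c * Matrix.trace (L * M * N) := by
  simp only [Matrix.smul_mul, Matrix.mul_smul, Matrix.trace_smul, smul_eq_mul]
  ring

/-- Linear substitutions. -/
theorem D_lin [Fintype α] [Fintype β] [Fintype γ] {T : α → β → γ → ℂ} {k p q s : ℕ}
    (h : D T k p q s) (A : α' → α → ℂ) (B : β' → β → ℂ) (C : γ' → γ → ℂ) :
    D (fun a b c => ∑ x, ∑ y, ∑ z, A a x * B b y * C c z * T x y z) k p q s := by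
  obtain ⟨κ, P, Q, S, _, _, _, _, L, M, N, h1, h2, h3, h4, h⟩ := h
  refine ⟨κ, P, Q, S, inferInstance, inferInstance, inferInstance, inferInstance,
    fun l a => ∑ x, A a x • L l x, fun l b => ∑ y, B b y • M l y,
    fun l c => ∑ z, C c z • N l z, h1, h2, h3, h4, fun a b c => ?_⟩
  have h5 : ∀ l, Matrix.trace ((∑ x, A a x • L l x) * (∑ y, B b y • M l y) *
      (∑ z, C c z • N l z)) = ∑ x, ∑ y, ∑ z, A a x * B b y * C c z *
        Matrix.trace (L l x * M l y * N l z) := by
    intro l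
    simp only [Matrix.sum_mul, Matrix.mul_sum, Matrix.trace_sum]
    calc ∑ z, ∑ y, ∑ x, Matrix.trace ((A a x • L l x) * (B b y • M l y) * (C c z • N l z))
        = ∑ y, ∑ z, ∑ x, Matrix.trace ((A a x • L l x) * (B b y • M l y) *
            (C c z • N l z)) := by rw [Finset.sum_comm]
      _ = ∑ y, ∑ x, ∑ z, Matrix.trace ((A a x • L l x) * (B b y • M l y) *
            (C c z • N l z)) := by
          refine Finset.sum_congr rfl fun y _ => ?_
          rw [Finset.sum_comm]
      _ = ∑ x, ∑ y, ∑ z, Matrix.trace ((A a x • L l x) * (B b y • M l y) *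
            (C c z • N l z)) := by rw [Finset.sum_comm]
      _ = _ := by
          refine Finset.sum_congr rfl fun x _ => Finset.sum_congr rfl fun y _ =>
            Finset.sum_congr rfl fun z _ => trace_smul3 _ _ _ _ _ _
  beta_reduce
  rw [Finset.sum_congr rfl fun l _ => h5 l]
  simp_rw [h, Finset.mul_sum]
  calc ∑ x, ∑ y, ∑ z, ∑ l, A a x * B b y * C c z * Matrix.trace (L l x * M l y * N l z)
      = ∑ x, ∑ y, ∑ l, ∑ z, A a x * B b y * C c z * Matrix.trace (L l x * M l y * N l z) := by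
        refine Finset.sum_congr rfl fun x _ => Finset.sum_congr rfl fun y _ => ?_
        rw [Finset.sum_comm]
    _ = ∑ x, ∑ l, ∑ y, ∑ z, A a x * B b y * C c z * Matrix.trace (L l x * M l y * N l z) := by
        refine Finset.sum_congr rfl fun x _ => ?_
        rw [Finset.sum_comm]
    _ = _ := by rw [Finset.sum_comm]

/-- Sums of scaled copies. -/
theorem D_wsum {T : α → β → γ → ℂ} {k p q s m : ℕ} (h : D T k p q s) (A : Fin m → α → ℂ)
    (B : Fin m → β → ℂ) (C : Fin m → γ → ℂ) :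
    D (fun a b c => ∑ j, A j a * B j b * C j c * T a b c) (m * k) p q s := by
  obtain ⟨κ, P, Q, S, _, _, _, _, L, M, N, h1, h2, h3, h4, h⟩ := h
  refine ⟨Fin m × κ, P, Q, S, inferInstance, inferInstance, inferInstance, inferInstance,
    fun l a => A l.1 a • L l.2 a, fun l b => B l.1 b • M l.2 b,
    fun l c => C l.1 c • N l.2 c, by simp [h1], h2, h3, h4, fun a b c => ?_⟩
  beta_reduce
  rw [Fintype.sum_prod_type]
  refine Finset.sum_congr rfl fun j _ => ?_
  rw [h, Finset.mul_sum]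
  exact Finset.sum_congr rfl fun l _ => (trace_smul3 _ _ _ _ _ _).symm

theorem D_mono {T : α → β → γ → ℂ} {k k' p q s : ℕ} (h : D T k p q s) (hk : k ≤ k') :
    D T k' p q s := by
  obtain ⟨κ, P, Q, S, _, _, _, _, L, M, N, h1, h2, h3, h4, h⟩ := h
  refine ⟨κ ⊕ Fin (k' - k), P, Q, S, inferInstance, inferInstance, inferInstance, inferInstance,
    fun l a => Sum.elim (fun l => L l a) (fun _ => 0) l, fun l b => Sum.elim (fun l => M l b)
      (fun _ => 0) l, fun l c => Sum.elim (fun l => N l c) (fun _ => 0) l, ?_, h2, h3, h4,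
      fun a b c => ?_⟩
  · rw [Fintype.card_sum, h1, Fintype.card_fin]; omega
  · rw [h, Fintype.sum_sum_type]
    simp

end closure

section rect

/-- **Rectangular formats.** -/
theorem rect_bound {a b c L p q s : ℕ} (habc : 1 ≤ a * b * c)
    (h : D (MMT ℂ (Fin a) (Fin b) (Fin c)) L p q s) :
    ((a * b * c : ℕ) : ℝ) ^ (omega / 3) ≤ L * ((p * q * s : ℕ) : ℝ) ^ (omega / 3) := by
  have h2 := h.rot
  have h3 := h2.rot
  have h4 := (h.mul h2).mul h3
  have hcard : Fintype.card (Fin a × Fin b × Fin c) = a * b * c := by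
    simp [mul_assoc]
  let e : Fin (a * b * c) ≃ Fin a × Fin b × Fin c := (Fintype.equivFinOfCardEq hcard).symm
  have h5 := h4.comp
    (fun x : Fin (a * b * c) × Fin (a * b * c) =>
      ((((e x.1).1, (e x.2).2.1), ((e x.1).2.1, (e x.2).2.2)), ((e x.1).2.2, (e x.2).1)))
    (fun x : Fin (a * b * c) × Fin (a * b * c) =>
      ((((e x.1).2.1, (e x.2).2.2), ((e x.1).2.2, (e x.2).1)), ((e x.1).1, (e x.2).2.1)))
    (fun x : Fin (a * b * c) × Fin (a * b * c) =>
      ((((e x.1).2.2, (e x.2).1), ((e x.1).1, (e x.2).2.1)), ((e x.1).2.1, (e x.2).2.2)))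
  have h6 : D (MMT ℂ (Fin (a * b * c)) (Fin (a * b * c)) (Fin (a * b * c))) (L * L * L)
      (p * q * s) (q * s * p) (s * p * q) := by
    refine h5.congr fun x y z => ?_
    have hp : ∀ (a b c : Prop) [Decidable a] [Decidable b] [Decidable c],
        (if a then (1 : ℂ) else 0) * (if b then 1 else 0) * (if c then 1 else 0) =
          if a ∧ b ∧ c then 1 else 0 := by
      intro a b c _ _ _
      by_cases ha : a <;> by_cases hb : b <;> by_cases hc : c <;> simp [ha, hb, hc]
    unfold MMT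
    rw [hp]
    refine if_congr ?_ rfl rfl
    rw [← e.injective.eq_iff, ← e.injective.eq_iff (a := x.2), ← e.injective.eq_iff (a := y.2)]
    generalize e x.1 = x1
    generalize e x.2 = x2
    generalize e y.1 = y1
    generalize e y.2 = y2
    generalize e z.1 = z1
    generalize e z.2 = z2
    obtain ⟨x11, x12, x13⟩ := x1
    obtain ⟨x21, x22, x23⟩ := x2
    obtain ⟨y11, y12, y13⟩ := y1
    obtain ⟨y21, y22, y23⟩ := y2
    obtain ⟨z11, z12, z13⟩ := z1
    obtain ⟨z21, z22, z23⟩ := z2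
    simp only [Prod.mk.injEq]
    constructor
    · rintro ⟨⟨a1, a2, a3⟩, ⟨b1, b2, b3⟩, c1, c2, c3⟩
      exact ⟨⟨a1, b2, c3⟩, ⟨c1.symm, a2.symm, b3⟩, b1.symm, c2, a3.symm⟩
    · rintro ⟨⟨a1, a2, a3⟩, ⟨b1, b2, b3⟩, c1, c2, c3⟩
      exact ⟨⟨a1, b2.symm, c3.symm⟩, ⟨c1.symm, a2, b3⟩, b1.symm, c2, a3⟩
  have h7 := D_bound habc h6
  have hn0 : (0 : ℝ) < ((a * b * c : ℕ) : ℝ) := by exact_mod_cast habc
  have e1 : ((a * b * c : ℕ) : ℝ) ^ omega = (((a * b * c : ℕ) : ℝ) ^ (omega / 3)) ^ 3 := by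
    rw [← Real.rpow_natCast (((a * b * c : ℕ) : ℝ) ^ (omega / 3)) 3, ← Real.rpow_mul hn0.le]
    congr 1
    push_cast
    ring
  have e2 : ((L * L * L : ℕ) : ℝ) * ((p * q * s * (q * s * p) * (s * p * q) : ℕ) : ℝ) ^ (omega / 3) =
      (L * ((p * q * s : ℕ) : ℝ) ^ (omega / 3)) ^ 3 := by
    have e3 : ((p * q * s * (q * s * p) * (s * p * q) : ℕ) : ℝ) = (((p * q * s : ℕ) : ℝ)) ^ 3 := by
      push_cast; ring
    have e4 : (((p * q * s : ℕ) : ℝ) ^ 3) ^ (omega / 3) = (((p * q * s : ℕ) : ℝ) ^ (omega / 3)) ^ 3 := by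
      rw [← Real.rpow_natCast (((p * q * s : ℕ) : ℝ)) 3,
        ← Real.rpow_natCast (((p * q * s : ℕ) : ℝ) ^ (omega / 3)) 3,
        ← Real.rpow_mul (Nat.cast_nonneg _), ← Real.rpow_mul (Nat.cast_nonneg _),
        mul_comm (omega / 3)]
    rw [e3, e4, mul_pow]
    push_cast
    ring
  rw [e1, e2] at h7
  exact le_of_pow_le_pow_left₀ (by norm_num) (by positivity) h7

end rect

end Pool.Agent.Y538.Fun
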