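import Pool.Agent.Y538.Net.Defs

/-!
# Networks computing functions of a product of two matrices: definitions
-/

set_option autoImplicit false

namespace Pool.Agent.Y538.Fun

open Pool.Agent.Y538.Net

variable {𝕜 : Type} [NontriviallyNormedField 𝕜]

/-- The product of the two matrices. -/
def mm {n : ℕ} (x : Pairs 𝕜 n) : Fin n → Fin n → 𝕜 := fun i j => ∑ k, x.1 i k * x.2 k j

/-- What is available for free after the first `l` gates: linear combinations of functions of the
first matrix alone and of functions of the second matrix alone, which are twice continuously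
differentiable at the matrices that occur, and of the outputs of the first `l` gates. -/
def Free {n b : ℕ} (D : Set (Pairs 𝕜 n)) (g : ℕ → Fin b → Pairs 𝕜 n → 𝕜) (l : ℕ) :
    Submodule 𝕜 (Pairs 𝕜 n → 𝕜) :=
  Submodule.span 𝕜 {f |
    (∃ φ : (Fin n → Fin n → 𝕜) → 𝕜, (∀ x ∈ D, ContDiffAt 𝕜 2 φ x.1) ∧ f = fun x => φ x.1) ∨
    (∃ φ : (Fin n → Fin n → 𝕜) → 𝕜, (∀ x ∈ D, ContDiffAt 𝕜 2 φ x.2) ∧ f = fun x => φ x.2) ∨
    ∃ s < l, ∃ o, f = g s o}

/-- `g 0, …, g (L - 1)` are the outputs of the gates of a network with input in the open set `D`: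
the `l`-th gate applies a map `φ : 𝕜 ^ a → 𝕜 ^ b` to `a` functions in `Free D g l`, and `φ` is twice
continuously differentiable at the values that occur. -/
def IsNetF {n : ℕ} (a b L : ℕ) (D : Set (Pairs 𝕜 n)) (g : ℕ → Fin b → Pairs 𝕜 n → 𝕜) : Prop :=
  IsOpen D ∧ ∀ l < L, ∃ (u : Fin a → Pairs 𝕜 n → 𝕜) (φ : (Fin a → 𝕜) → Fin b → 𝕜),
    (∀ i, u i ∈ Free D g l) ∧
      ∀ x ∈ D, ContDiffAt 𝕜 2 φ (fun i => u i x) ∧ ∀ o, g l o x = φ (fun i => u i x) o

/-- The values `Φ (A B)` are computed with `L` gates with `a` inputs and `b` outputs, everything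
that depends on `A` alone or on `B` alone being free: there are countably many networks with `L`
gates such that the pairs `(A, B)`, for which `Φ` is a submersion at `A B` and at least one of the
networks is defined at `(A, B)` and gives `Φ (A B)`, form a set which is not meagre. -/
def SolvesF (𝕜 : Type) [NontriviallyNormedField 𝕜] (n a b L d : ℕ)
    (Φ : (Fin n → Fin n → 𝕜) → Fin d → 𝕜) : Prop :=
  ∃ (D : ℕ → Set (Pairs 𝕜 n)) (g : ℕ → ℕ → Fin b → Pairs 𝕜 n → 𝕜)
    (F : ℕ → Fin d → Pairs 𝕜 n → 𝕜),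
    (∀ w, IsNetF a b L (D w) (g w) ∧ ∀ o, F w o ∈ Free (D w) (g w) L) ∧
      ¬ IsMeagre {x : Pairs 𝕜 n | ContDiffAt 𝕜 2 Φ (mm x) ∧
        Function.Surjective (fderiv 𝕜 Φ (mm x)) ∧ ∃ w, x ∈ D w ∧ ∀ o, F w o x = Φ (mm x) o}

end Pool.Agent.Y538.Fun
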