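import Pool.Agent.Y538.Fun.Part

/-!
# Commutators tested against a space of linear forms
-/

set_option autoImplicit false
set_option linter.unusedSectionVars false

namespace Pool.Agent.Y538.Fun

open Finset Filter Pool.Agent.H515R2.MMR Pool.Agent.W329.AR Pool.Agent.Y538.Net
open Pool.Agent.Y538.Par (le_of_pow_le_poly two_le_omega lag)

section deg

variable {n : ℕ}

lemma wt_le (τ : Fin n × Fin n) : n * (τ.1 : ℕ) + τ.2 ≤ n ^ 2 := by
  have h1 := τ.1.2
  have h2 := τ.2.2
  have h3 : n * (τ.1 : ℕ) ≤ n * (n - 1) := Nat.mul_le_mul_left n (by omega)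
  have h4 : n * (n - 1) + n = n ^ 2 := by
    obtain ⟨m, rfl⟩ : ∃ m, n = m + 1 := ⟨n - 1, by omega⟩
    simp only [Nat.add_sub_cancel]
    ring
  omega

lemma wt_inj {τ z : Fin n × Fin n} (h : n * (τ.1 : ℕ) + τ.2 = n * (z.1 : ℕ) + z.2) : τ = z := by
  have h1 := τ.2.2
  have h2 := z.2.2
  have h3 : (τ.1 : ℕ) = z.1 := by
    have e1 : (n * (τ.1 : ℕ) + τ.2) / n = τ.1 := by
      rw [Nat.mul_add_div (by omega), Nat.div_eq_of_lt h1, add_zero]
    have e2 : (n * (z.1 : ℕ) + z.2) / n = z.1 := by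
      rw [Nat.mul_add_div (by omega), Nat.div_eq_of_lt h2, add_zero]
    rw [← e1, ← e2, h]
  refine Prod.ext (Fin.ext h3) (Fin.ext ?_)
  rw [h3] at h
  omega

/-- Exact degeneration of powers. -/
theorem deg_pow (S : Finset (Fin n × Fin n)) (u : Fin n × Fin n → Fin n × Fin n → ℂ)
    (hu1 : ∀ z ∈ S, u z z = 1)
    (hu0 : ∀ z ∈ S, ∀ τ : Fin n × Fin n, n * (τ.1 : ℕ) + τ.2 < n * (z.1 : ℕ) + z.2 → u z τ = 0)
    {L p q s : ℕ}
    (h : D (fun x y z : Fin n × Fin n => if z ∈ S ∧ x.2 = y.1 then u z (x.1, y.2) else 0)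
      L p q s) (N : ℕ) :
    D (fun (x y z : Fin N → Fin n × Fin n) => ∏ t, PT S (x t) (y t) (z t))
      ((N * n ^ 2 + 1) * L ^ N) (p ^ N) (q ^ N) (s ^ N) := by
  classical
  have h1 := D.pi (n := N) (fun _ => _) (fun _ => _) (fun _ => _) (fun _ => _) (fun _ => _)
    (fun _ => h)
  simp only [Finset.prod_const, Finset.card_univ, Fintype.card_fin] at h1
  set m : ℕ := N * n ^ 2 + 1 with hm
  let v : Fin m → ℂ := fun j => ((j : ℕ) : ℂ) + 1
  have hv : Function.Injective v := by
    intro i j h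
    have h2 : ((i : ℕ) : ℂ) = ((j : ℕ) : ℂ) := by
      have := h
      simp only [v] at this
      linear_combination this
    exact Fin.ext (Nat.cast_injective h2)
  have hv0 : ∀ j, v j ≠ 0 := by
    intro j h
    have h2 : (((j : ℕ) + 1 : ℕ) : ℂ) = 0 := by
      push_cast
      exact h
    exact Nat.cast_ne_zero.mpr (Nat.succ_ne_zero _) h2
  have h2 := D_wsum (m := m) h1
    (fun j x => (Lagrange.basis univ v j).coeff 0 * ∏ t, v j ^ (n * ((x t).1 : ℕ)))
    (fun j y => ∏ t, v j ^ ((y t).2 : ℕ))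
    (fun j z => ∏ t, (v j ^ (n * ((z t).1 : ℕ) + (z t).2))⁻¹)
  refine h2.congr fun x y z => ?_
  let f : Fin N → Polynomial ℂ := fun t =>
    if ((z t) ∈ S ∧ (x t).2 = (y t).1) ∧ n * ((z t).1 : ℕ) + (z t).2 ≤ n * ((x t).1 : ℕ) + (y t).2
    then Polynomial.X ^ (n * ((x t).1 : ℕ) + (y t).2 - (n * ((z t).1 : ℕ) + (z t).2)) *
      Polynomial.C (u (z t) ((x t).1, (y t).2)) else 0
  have hdeg : ∀ t, (f t).natDegree ≤ n ^ 2 := by
    intro t
    simp only [f]
    split_ifs with h
    · refine (Polynomial.natDegree_mul_le).trans ?_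
      rw [Polynomial.natDegree_C, Polynomial.natDegree_X_pow]
      have := wt_le ((x t).1, (y t).2)
      simp only at this
      omega
    · simp
  have hdeg2 : (∏ t, f t).degree < (univ : Finset (Fin m)).card := by
    refine lt_of_le_of_lt Polynomial.degree_le_natDegree ?_
    have h3 : (∏ t, f t).natDegree ≤ ∑ t : Fin N, n ^ 2 :=
      (Polynomial.natDegree_prod_le _ _).trans (Finset.sum_le_sum fun t _ => hdeg t)
    rw [Finset.sum_const, Finset.card_univ, Fintype.card_fin, smul_eq_mul] at h3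
    rw [Finset.card_univ, Fintype.card_fin]
    exact_mod_cast Nat.lt_succ_of_le h3
  have hlag := lag hv univ (∏ t, f t) hdeg2 0
  have e1 : (∏ t, f t).coeff 0 = ∏ t, PT S (x t) (y t) (z t) := by
    rw [Polynomial.coeff_zero_eq_eval_zero, Polynomial.eval_prod]
    refine Finset.prod_congr rfl fun t _ => ?_
    simp only [f, PT]
    by_cases g1 : (z t) ∈ S ∧ (x t).2 = (y t).1
    · by_cases g2 : n * ((z t).1 : ℕ) + (z t).2 ≤ n * ((x t).1 : ℕ) + (y t).2
      · rw [if_pos ⟨g1, g2⟩]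
        by_cases g3 : ((x t).1, (y t).2) = z t
        · rw [if_pos ⟨g1.2, g3, g1.1⟩, g3, hu1 _ g1.1]
          have g4 : n * ((x t).1 : ℕ) + (y t).2 = n * ((z t).1 : ℕ) + (z t).2 := by
            rw [← g3]
          rw [g4]
          simp
        · rw [if_neg (fun h => g3 h.2.1)]
          have g4 : n * ((x t).1 : ℕ) + (y t).2 ≠ n * ((z t).1 : ℕ) + (z t).2 := fun h =>
            g3 (wt_inj h)
          simp only [Polynomial.eval_mul, Polynomial.eval_pow, Polynomial.eval_X,
            Polynomial.eval_C]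
          rw [zero_pow (by omega), zero_mul]
      · rw [if_neg (fun h => g2 h.2), Polynomial.eval_zero, if_neg]
        rintro ⟨_, h4, _⟩
        apply g2
        rw [← h4]
    · rw [if_neg (fun h => g1 h.1), Polynomial.eval_zero, if_neg]
      rintro ⟨h3, _, h4⟩
      exact g1 ⟨h4, h3⟩
  have e2 : ∀ j, (∏ t, f t).eval (v j) = (∏ t, v j ^ (n * ((x t).1 : ℕ))) *
      (∏ t, v j ^ ((y t).2 : ℕ)) * (∏ t, (v j ^ (n * ((z t).1 : ℕ) + (z t).2))⁻¹) *
      ∏ t, (if z t ∈ S ∧ (x t).2 = (y t).1 then u (z t) ((x t).1, (y t).2) else 0) := by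
    intro j
    rw [Polynomial.eval_prod, ← Finset.prod_mul_distrib, ← Finset.prod_mul_distrib,
      ← Finset.prod_mul_distrib]
    refine Finset.prod_congr rfl fun t _ => ?_
    simp only [f]
    by_cases g1 : (z t) ∈ S ∧ (x t).2 = (y t).1
    · rw [if_pos g1]
      by_cases g2 : n * ((z t).1 : ℕ) + (z t).2 ≤ n * ((x t).1 : ℕ) + (y t).2
      · rw [if_pos ⟨g1, g2⟩]
        simp only [Polynomial.eval_mul, Polynomial.eval_pow, Polynomial.eval_X,
            Polynomial.eval_C]
        congr 1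
        rw [← pow_add]
        have h3 : v j ^ (n * ((z t).1 : ℕ) + (z t).2) ≠ 0 := pow_ne_zero _ (hv0 j)
        rw [← div_eq_mul_inv, eq_div_iff h3, ← pow_add]
        congr 1
        omega
      · rw [if_neg (fun h => g2 h.2), Polynomial.eval_zero, hu0 (z t) g1.1 ((x t).1, (y t).2)
          (by simp only; omega), mul_zero]
    · rw [if_neg (fun h => g1 h.1), Polynomial.eval_zero, if_neg g1, mul_zero]
  rw [← e1, ← hlag]
  refine Finset.sum_congr rfl fun j _ => ?_
  rw [e2]
  ring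

theorem deg_law (hn : 1 ≤ n) (S : Finset (Fin n × Fin n)) (hS : 1 ≤ S.card)
    (u : Fin n × Fin n → Fin n × Fin n → ℂ)
    (hu1 : ∀ z ∈ S, u z z = 1)
    (hu0 : ∀ z ∈ S, ∀ τ : Fin n × Fin n, n * (τ.1 : ℕ) + τ.2 < n * (z.1 : ℕ) + z.2 → u z τ = 0)
    {L p q s : ℕ}
    (h : D (fun x y z : Fin n × Fin n => if z ∈ S ∧ x.2 = y.1 then u z (x.1, y.2) else 0)
      L p q s) :
    ((n * S.card : ℕ) : ℝ) ^ (omega / 3) ≤ L * ((p * q * s : ℕ) : ℝ) ^ (omega / 3) := by
  have h1 := part_law (I := Fin n) (J := Fin n) (K := Fin n) S (h := n ^ 2) hS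
    (by rw [Fintype.card_fin]; exact hn) (fun N _ => deg_pow S u hu1 hu0 h N)
  rwa [Fintype.card_fin] at h1

end deg

section pivot

/-- Pivots of linearly independent vectors with respect to a weight. -/
lemma pivots' {𝕜 P : Type} [Field 𝕜] [Fintype P] [DecidableEq P] {d : ℕ} (w : Fin d → P → 𝕜)
    (hw : LinearIndependent 𝕜 w) (wt : P → ℕ) :
    ∃ (S : Finset P) (c : P → Fin d → 𝕜), d ≤ S.card ∧ ∀ z ∈ S, (∑ o, c z o * w o z = 1) ∧
      ∀ τ, wt τ < wt z → ∑ o, c z o * w o τ = 0 := by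
  classical
  set U : Submodule 𝕜 (P → 𝕜) := Submodule.span 𝕜 (Set.range w) with hU
  have hdim : Module.finrank 𝕜 U = d := by
    rw [hU, finrank_span_eq_card hw, Fintype.card_fin]
  set S : Finset P := Finset.univ.filter fun σ =>
    ∃ u ∈ U, u σ ≠ 0 ∧ ∀ τ, wt τ < wt σ → u τ = 0 with hS
  have hex : ∀ σ : P, ∃ c : Fin d → 𝕜, σ ∈ S → (∑ o, c o * w o σ = 1) ∧
      ∀ τ, wt τ < wt σ → ∑ o, c o * w o τ = 0 := by
    intro σ
    by_cases hσ : σ ∈ S
    · obtain ⟨u, hu, h1, h2⟩ := (Finset.mem_filter.mp hσ).2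
      obtain ⟨c, hc⟩ := (Submodule.mem_span_range_iff_exists_fun 𝕜).mp hu
      have h3 : ∀ τ, ∑ o, c o * w o τ = u τ := by
        intro τ
        rw [← hc]
        simp
      refine ⟨fun o => (u σ)⁻¹ * c o, fun _ => ⟨?_, fun τ hτ => ?_⟩⟩
      · simp only [mul_assoc]
        rw [← Finset.mul_sum, h3, inv_mul_cancel₀ h1]
      · simp only [mul_assoc]
        rw [← Finset.mul_sum, h3, h2 τ hτ, mul_zero]
    · exact ⟨0, fun h => absurd h hσ⟩
  choose c hc using hex
  refine ⟨S, c, ?_, hc⟩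
  rw [← hdim]
  let Lm : U →ₗ[𝕜] (S → 𝕜) :=
    { toFun := fun A σ => (A : P → 𝕜) σ.1
      map_add' := fun A B => by ext σ; simp
      map_smul' := fun c A => by ext σ; simp }
  have hinj : Function.Injective Lm := by
    rw [← LinearMap.ker_eq_bot, LinearMap.ker_eq_bot']
    rintro ⟨A, hA⟩ h0
    by_contra hne
    have hA0 : A ≠ 0 := fun h => hne (by simp [h])
    have hex : (Finset.univ.filter fun σ : P => A σ ≠ 0).Nonempty := by
      by_contra hcon
      rw [Finset.not_nonempty_iff_eq_empty] at hcon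
      apply hA0
      funext i
      by_contra hij
      have : i ∈ (Finset.univ.filter fun σ : P => A σ ≠ 0) := by
        simpa using hij
      rw [hcon] at this
      exact absurd this (Finset.notMem_empty _)
    obtain ⟨σ, hσ, hmin⟩ := Finset.exists_min_image _ wt hex
    have hσS : σ ∈ S := by
      rw [hS, Finset.mem_filter]
      refine ⟨Finset.mem_univ _, A, hA, (Finset.mem_filter.mp hσ).2, ?_⟩
      intro τ hτ
      by_contra hAτ
      have := hmin τ (by simpa using hAτ)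
      omega
    have := congrFun h0 ⟨σ, hσS⟩
    exact (Finset.mem_filter.mp hσ).2 (by simpa [Lm] using this)
  have := LinearMap.finrank_le_finrank_of_injective hinj
  simpa using this

/-- A large directed cut. -/
lemma exists_cut {n : ℕ} (S : Finset (Fin n × Fin n)) (hS : ∀ z ∈ S, z.1 ≠ z.2) :
    ∃ I : Finset (Fin n), S.card ≤ 4 * (S.filter fun z => z.1 ∈ I ∧ z.2 ∉ I).card := by
  classical
  rcases Nat.eq_zero_or_pos S.card with h0 | h0
  · exact ⟨∅, by omega⟩
  obtain ⟨z0, hz0⟩ := Finset.card_pos.mp h0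
  have hn : 2 ≤ n := by
    by_contra hcon
    apply hS z0 hz0
    have h1 := z0.1.2
    have h2 := z0.2.2
    exact Fin.ext (by omega)
  by_contra hcon
  push Not at hcon
  have h1 : ∀ z ∈ S, 2 ^ (n - 2) ≤
      ((univ : Finset (Finset (Fin n))).filter fun I => z.1 ∈ I ∧ z.2 ∉ I).card := by
    intro z hz
    have hne := hS z hz
    set X : Finset (Fin n) := (univ.erase z.1).erase z.2 with hX
    have hXc : X.card = n - 2 := by
      rw [hX, Finset.card_erase_of_mem (Finset.mem_erase.mpr ⟨hne.symm, Finset.mem_univ _⟩),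
        Finset.card_erase_of_mem (Finset.mem_univ _), Finset.card_univ, Fintype.card_fin]
      omega
    rw [← hXc, ← Finset.card_powerset]
    refine Finset.card_le_card_of_injOn (fun J => insert z.1 J) ?_ ?_
    · intro J hJ
      have hJ' : J ⊆ X := Finset.mem_powerset.mp (Finset.mem_coe.mp hJ)
      simp only [Finset.coe_filter, Finset.mem_univ, true_and, Set.mem_ofPred_eq,
        Finset.mem_insert_self, Finset.mem_insert, not_or]
      refine ⟨hne.symm, fun h => ?_⟩
      have := hJ' h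
      simp [hX] at this
    · intro J hJ J' hJ' h
      have hJ1 : J ⊆ X := Finset.mem_powerset.mp (Finset.mem_coe.mp hJ)
      have hJ2 : J' ⊆ X := Finset.mem_powerset.mp (Finset.mem_coe.mp hJ')
      have g1 : z.1 ∉ J := fun h => by
        have := hJ1 h
        simp [hX] at this
      have g2 : z.1 ∉ J' := fun h => by
        have := hJ2 h
        simp [hX] at this
      have := congrArg (fun Y => Finset.erase Y z.1) h
      simpa [Finset.erase_insert g1, Finset.erase_insert g2] using this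
  have h2 : ∑ I : Finset (Fin n), (S.filter fun z => z.1 ∈ I ∧ z.2 ∉ I).card =
      ∑ z ∈ S, ((univ : Finset (Finset (Fin n))).filter fun I => z.1 ∈ I ∧ z.2 ∉ I).card := by
    simp_rw [Finset.card_filter]
    rw [Finset.sum_comm]
  have h3 : S.card * 2 ^ (n - 2) ≤ ∑ I : Finset (Fin n),
      (S.filter fun z => z.1 ∈ I ∧ z.2 ∉ I).card := by
    rw [h2]
    calc S.card * 2 ^ (n - 2) = ∑ z ∈ S, 2 ^ (n - 2) := by rw [Finset.sum_const, smul_eq_mul]
      _ ≤ _ := Finset.sum_le_sum h1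
  have h4 : ∑ I : Finset (Fin n), (4 * (S.filter fun z => z.1 ∈ I ∧ z.2 ∉ I).card + 1) ≤
      ∑ I : Finset (Fin n), S.card := Finset.sum_le_sum fun I _ => hcon I
  rw [Finset.sum_add_distrib, ← Finset.mul_sum, Finset.sum_const, Finset.sum_const,
    Finset.card_univ, Fintype.card_finset, Fintype.card_fin, smul_eq_mul, smul_eq_mul,
    mul_one] at h4
  have h5 : 2 ^ n = 4 * 2 ^ (n - 2) := by
    have : n = (n - 2) + 2 := by omega
    conv_lhs => rw [this, pow_add]
    ring
  have h6 : 0 < 2 ^ (n - 2) := by positivity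
  rw [h5] at h4
  nlinarith

end pivot

section comm

/-- **Commutators and linear forms.** -/
theorem comm_law {𝕜 : Type} [Field 𝕜] (σ : 𝕜 →+* ℂ) {n d : ℕ} (w : Fin d → Fin n × Fin n → 𝕜)
    (hw : LinearIndependent 𝕜 w) {L p q s : ℕ}
    (hD : ∀ c : Fin n × Fin n → Fin d → 𝕜, D (fun x y z : Fin n × Fin n =>
      σ (∑ o, c z o * ((if x.2 = y.1 then w o (x.1, y.2) else 0) -
        (if y.2 = x.1 then w o (y.1, x.2) else 0)))) L p q s) :
    ((n * (d - n) : ℕ) : ℝ) ^ (omega / 3) ≤ L * ((4 * (p * q * s) : ℕ) : ℝ) ^ (omega / 3) := by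
  classical
  have hω := two_le_omega
  rcases le_or_gt d n with hdn | hdn
  · have : n * (d - n) = 0 := by
      rw [Nat.sub_eq_zero_of_le hdn, mul_zero]
    rw [this, Nat.cast_zero, Real.zero_rpow (by linarith)]
    positivity
  obtain ⟨S, c, hS, hc⟩ := pivots' w hw (fun τ => n * (τ.1 : ℕ) + τ.2)
  set S1 : Finset (Fin n × Fin n) := S.filter fun z => z.1 ≠ z.2 with hS1
  have hS1c : d - n ≤ S1.card := by
    have h1 : (S.filter fun z => ¬ z.1 ≠ z.2).card ≤ n := by
      calc (S.filter fun z => ¬ z.1 ≠ z.2).card ≤ (univ : Finset (Fin n)).card := by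
            refine Finset.card_le_card_of_injOn (fun z => z.1) (fun _ _ => Finset.mem_coe.mpr (Finset.mem_univ _)) ?_
            intro z hz z' hz' h
            have g1 := (Finset.mem_filter.mp (Finset.mem_coe.mp hz)).2
            have g2 := (Finset.mem_filter.mp (Finset.mem_coe.mp hz')).2
            push Not at g1 g2
            exact Prod.ext h (by rw [← g1, ← g2]; exact h)
        _ = n := by rw [Finset.card_univ, Fintype.card_fin]
    have h2 := Finset.card_filter_add_card_filter_not (s := S) (fun z : Fin n × Fin n => z.1 ≠ z.2)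
    rw [← hS1] at h2
    omega
  obtain ⟨I, hI⟩ := exists_cut S1 (fun z hz => (Finset.mem_filter.mp hz).2)
  set S2 : Finset (Fin n × Fin n) := S1.filter fun z => z.1 ∈ I ∧ z.2 ∉ I with hS2
  have hS2c : d - n ≤ 4 * S2.card := hS1c.trans hI
  have hS2S : ∀ z ∈ S2, z ∈ S ∧ z.1 ∈ I ∧ z.2 ∉ I := fun z hz =>
    ⟨(Finset.mem_filter.mp (Finset.mem_filter.mp hz).1).1, (Finset.mem_filter.mp hz).2⟩
  have hn : 1 ≤ n := by
    by_contra hcon
    have h0 : n = 0 := by omega
    subst h0
    have : S.card ≤ 0 := by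
      calc S.card ≤ Fintype.card (Fin 0 × Fin 0) := Finset.card_le_univ S
        _ = 0 := by simp
    omega
  let u : Fin n × Fin n → Fin n × Fin n → ℂ := fun z τ =>
    if τ.1 ∈ I ∧ τ.2 ∉ I then σ (∑ o, c z o * w o τ) else 0
  have h1 := D_wsum (m := 1) (hD c) (fun _ x => if x.1 ∈ I then 1 else 0)
    (fun _ y => if y.2 ∉ I then 1 else 0) (fun _ z => if z ∈ S2 then 1 else 0)
  rw [one_mul] at h1
  have h2 : D (fun x y z : Fin n × Fin n => if z ∈ S2 ∧ x.2 = y.1 then u z (x.1, y.2) else 0)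
      L p q s := by
    refine h1.congr fun x y z => ?_
    rw [Fintype.sum_unique]
    simp only [u]
    by_cases g1 : z ∈ S2
    · by_cases g2 : x.1 ∈ I
      · by_cases g3 : y.2 ∈ I
        · simp [g3]
        · have g4 : ¬ y.2 = x.1 := fun h => g3 (h ▸ g2)
          by_cases g5 : x.2 = y.1
          · simp [g1, g2, g3, g4, g5]
          · simp [g4, g5]
      · simp [g2]
    · simp [g1]
  have h3 := deg_law hn S2 (by omega) u
    (fun z hz => by
      obtain ⟨g1, g2⟩ := hS2S z hz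
      simp only [u]
      rw [if_pos g2, (hc z g1).1, map_one])
    (fun z hz τ hτ => by
      obtain ⟨g1, g2⟩ := hS2S z hz
      simp only [u]
      split_ifs
      · rw [(hc z g1).2 τ hτ, map_zero]
      · rfl) h2
  have h4 : ((n * (d - n) : ℕ) : ℝ) ≤ 4 * ((n * S2.card : ℕ) : ℝ) := by
    have : n * (d - n) ≤ 4 * (n * S2.card) := by
      calc n * (d - n) ≤ n * (4 * S2.card) := Nat.mul_le_mul_left n hS2c
        _ = _ := by ring
    exact_mod_cast this
  calc ((n * (d - n) : ℕ) : ℝ) ^ (omega / 3) ≤ (4 * ((n * S2.card : ℕ) : ℝ)) ^ (omega / 3) :=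
        Real.rpow_le_rpow (Nat.cast_nonneg _) h4 (by positivity)
    _ = 4 ^ (omega / 3) * ((n * S2.card : ℕ) : ℝ) ^ (omega / 3) :=
        Real.mul_rpow (by norm_num) (Nat.cast_nonneg _)
    _ ≤ 4 ^ (omega / 3) * (L * ((p * q * s : ℕ) : ℝ) ^ (omega / 3)) := by gcongr
    _ = L * ((4 * (p * q * s) : ℕ) : ℝ) ^ (omega / 3) := by
        have : ((4 * (p * q * s) : ℕ) : ℝ) = 4 * ((p * q * s : ℕ) : ℝ) := by push_cast; ring
        rw [this, Real.mul_rpow (by norm_num) (Nat.cast_nonneg _)]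
        ring

end comm

end Pool.Agent.Y538.Fun
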