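import Pool.Agent.Y538.Fun.Defs

/-!
# Ranks of the derivatives of the inputs of the gates: definitions
-/

set_option autoImplicit false

namespace Pool.Agent.Y538.Fun

open Pool.Agent.Y538.Net

variable {𝕜 : Type} [NontriviallyNormedField 𝕜]

/-- `g 0, …, g (L - 1)` are the outputs and `u 0, …, u (L - 1)` the inputs of the gates of a network
with input in the open set `D`: the `l`-th gate applies a map `φ : 𝕜 ^ a → 𝕜 ^ b` to `a` functions
`u l i` in `Free D g l`, and `φ` is twice continuously differentiable at the values that occur. -/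
def NetU {n : ℕ} (a b L : ℕ) (D : Set (Pairs 𝕜 n)) (u : ℕ → Fin a → Pairs 𝕜 n → 𝕜)
    (g : ℕ → Fin b → Pairs 𝕜 n → 𝕜) : Prop :=
  IsOpen D ∧ ∀ l < L, (∀ i, u l i ∈ Free D g l) ∧ ∃ φ : (Fin a → 𝕜) → Fin b → 𝕜,
    ∀ x ∈ D, ContDiffAt 𝕜 2 φ (fun i => u l i x) ∧ ∀ o, g l o x = φ (fun i => u l i x) o

/-- The rank of the matrix of the partial derivatives of `f` at `x` with respect to the entries of
the first matrix. -/
noncomputable def rkA {n : ℕ} (f : Pairs 𝕜 n → 𝕜) (x : Pairs 𝕜 n) : ℕ :=
  (Matrix.of fun i j : Fin n =>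
    fderiv 𝕜 f x (fun k l => if k = i ∧ l = j then 1 else 0, 0)).rank

/-- The rank of the matrix of the partial derivatives of `f` at `x` with respect to the entries of
the second matrix. -/
noncomputable def rkB {n : ℕ} (f : Pairs 𝕜 n → 𝕜) (x : Pairs 𝕜 n) : ℕ :=
  (Matrix.of fun i j : Fin n =>
    fderiv 𝕜 f x (0, fun k l => if k = i ∧ l = j then 1 else 0)).rank

/-- A network with gates with `a` inputs and `b` outputs, whose input is a pair of `n × n` matrices
and whose outputs are indexed by `κ`: the number `L` of gates, the open set `D` where the network is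
defined, the inputs `u` and the outputs `g` of the gates, and the outputs `F` of the network. -/
structure Network (𝕜 : Type) [NontriviallyNormedField 𝕜] (n a b : ℕ) (κ : Type) where
  L : ℕ
  D : Set (Pairs 𝕜 n)
  u : ℕ → Fin a → Pairs 𝕜 n → 𝕜
  g : ℕ → Fin b → Pairs 𝕜 n → 𝕜
  F : κ → Pairs 𝕜 n → 𝕜
  net : NetU a b L D u g
  out : ∀ o, F o ∈ Free D g L

namespace Network

variable {n a b : ℕ} {κ : Type} (N : Network 𝕜 n a b κ)

/-- At the input `x` the network is defined and its outputs are the values `Φ (A B)`. -/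
def Gives (Φ : (Fin n → Fin n → 𝕜) → κ → 𝕜) (x : Pairs 𝕜 n) : Prop :=
  x ∈ N.D ∧ ∀ o, N.F o x = Φ (mm x) o

/-- The sum of `rkA` over all inputs of all gates. -/
noncomputable def sumA (x : Pairs 𝕜 n) : ℕ := ∑ l ∈ Finset.range N.L, ∑ i, rkA (N.u l i) x

/-- The sum of `rkB` over all inputs of all gates. -/
noncomputable def sumB (x : Pairs 𝕜 n) : ℕ := ∑ l ∈ Finset.range N.L, ∑ i, rkB (N.u l i) x

/-- The number of gates which have an input with `rkA` larger than `r`. -/
noncomputable def aboveA (r : ℕ) (x : Pairs 𝕜 n) : ℕ :=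
  ((Finset.range N.L).filter fun l => ∃ i, r < rkA (N.u l i) x).card

/-- The number of gates which have an input with `rkB` larger than `r`. -/
noncomputable def aboveB (r : ℕ) (x : Pairs 𝕜 n) : ℕ :=
  ((Finset.range N.L).filter fun l => ∃ i, r < rkB (N.u l i) x).card

end Network

/-- The product itself, as a family of functions of the product. -/
def entries {n : ℕ} : (Fin n → Fin n → 𝕜) → Fin n × Fin n → 𝕜 := fun C o => C o.1 o.2

end Pool.Agent.Y538.Fun
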