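import Pool.Agent.Y538.Fun.GradMain

/-!
# Ranks of the derivatives of the inputs of the gates: networks that are right often
-/

set_option autoImplicit false
set_option linter.unusedSectionVars false

namespace Pool.Agent.Y538.Fun

open Topology Filter Finset Pool.Agent.Y538.Net Pool.Agent.H88R3.MM

section net

variable {𝕜 : Type} [NontriviallyNormedField 𝕜] {n a b d : ℕ}

lemma diff_meagre {X : Type*} [TopologicalSpace X] (Z : ℕ → Set X) :
    IsMeagre (⋃ w, (Z w \ interior (closure (Z w)))) :=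
  isMeagre_iUnion fun w => (nowhere (Z w)).isMeagre

/-- **The product.** -/
theorem product_meagre {L : ℕ → ℕ} {D : ℕ → Set (Pairs 𝕜 n)}
    {u : ℕ → ℕ → Fin a → Pairs 𝕜 n → 𝕜} {g : ℕ → ℕ → Fin b → Pairs 𝕜 n → 𝕜}
    {F : ℕ → Fin n → Fin n → Pairs 𝕜 n → 𝕜}
    (h : ∀ w, NetU a b (L w) (D w) (u w) (g w) ∧ ∀ i j, F w i j ∈ Free (D w) (g w) (L w)) :
    IsMeagre {x : Pairs 𝕜 n | ∃ w, x ∈ D w ∧ (∀ i j, F w i j x = mm x i j) ∧
      ¬ (n ^ 3 ≤ min a b * ∑ l ∈ range (L w), ∑ i, rkA (u w l i) x ∧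
        n ^ 3 ≤ min a b * ∑ l ∈ range (L w), ∑ i, rkB (u w l i) x)} := by
  let Z : ℕ → Set (Pairs 𝕜 n) := fun w =>
    {y | ∀ o : Fin n × Fin n, F w o.1 o.2 y = (fun C (o : Fin n × Fin n) => C o.1 o.2) (mm y) o}
  refine (diff_meagre Z).mono ?_
  rintro x ⟨w, hw, hF, hnot⟩
  refine Set.mem_iUnion.mpr ⟨w, fun o => hF o.1 o.2, fun hx => hnot ?_⟩
  refine product_point (h w).1 (h w).2 hw fun z => ?_
  refine right_nearby (Φ := fun C (o : Fin n × Fin n) => C o.1 o.2) (isNetF_of_netU (h w).1)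
    (F := fun o : Fin n × Fin n => F w o.1 o.2) (fun o => (h w).2 o.1 o.2) hw (fun o => ?_) hx z
  refine Filter.Eventually.of_forall fun C => ?_
  have : Continuous fun C : Fin n → Fin n → 𝕜 => C o.1 o.2 :=
    (continuous_apply o.2).comp (continuous_apply o.1)
  exact this.continuousAt

lemma rkA_le (f : Pairs 𝕜 n → 𝕜) (x : Pairs 𝕜 n) : rkA f x ≤ n := by
  unfold rkA
  refine (Matrix.rank_le_card_width _).trans ?_
  simp

lemma rkB_le (f : Pairs 𝕜 n → 𝕜) (x : Pairs 𝕜 n) : rkB f x ≤ n := by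
  unfold rkB
  refine (Matrix.rank_le_card_width _).trans ?_
  simp

/-- few gates with an input of large rank -/
lemma sum_threshold (L r : ℕ) (f : ℕ → Fin a → ℕ) (hf : ∀ l i, f l i ≤ n) :
    ∑ l ∈ range L, ∑ i, f l i ≤
      a * (r * L + n * ((range L).filter fun l => ∃ i, r < f l i).card) := by
  classical
  have h1 : ∀ l ∈ range L, ∑ i, f l i ≤ a * r + if ∃ i, r < f l i then a * n else 0 := by
    intro l _
    split_ifs with h
    · refine le_trans ?_ (Nat.le_add_left _ _)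
      calc ∑ i, f l i ≤ ∑ _i : Fin a, n := Finset.sum_le_sum fun i _ => hf l i
        _ = a * n := by simp
    · push Not at h
      calc ∑ i, f l i ≤ ∑ _i : Fin a, r := Finset.sum_le_sum fun i _ => h i
        _ = a * r := by simp
        _ ≤ _ := by omega
  refine (Finset.sum_le_sum h1).trans (le_of_eq ?_)
  rw [Finset.sum_add_distrib, Finset.sum_const, Finset.card_range, ← Finset.sum_filter,
    Finset.sum_const, smul_eq_mul, smul_eq_mul]
  ring

end net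

section comm

variable {𝕜 : Type} [RCLike 𝕜] {n a b d : ℕ}

lemma singular_nowhere : IsNowhereDense {x : Pairs 𝕜 n |
    (Matrix.of x.1).det = 0 ∨ (Matrix.of x.2).det = 0} := by
  have hcl : IsClosed {x : Pairs 𝕜 n | (Matrix.of x.1).det = 0 ∨ (Matrix.of x.2).det = 0} := by
    refine IsClosed.union ?_ ?_
    · exact isClosed_eq (Continuous.matrix_det (continuous_fst)) continuous_const
    · exact isClosed_eq (Continuous.matrix_det (continuous_snd)) continuous_const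
  rw [hcl.isNowhereDense_iff]
  by_contra hne
  obtain ⟨y, hy⟩ := Set.nonempty_iff_ne_empty.mpr hne
  obtain ⟨x, hx, h1, h2⟩ := exists_invertible isOpen_interior hy
  rcases interior_subset hx with h | h
  · exact h1 h
  · exact h2 h

/-- **Functions of the product.** -/
theorem function_meagre {Φ : (Fin n → Fin n → 𝕜) → Fin d → 𝕜} {L : ℕ → ℕ}
    {D : ℕ → Set (Pairs 𝕜 n)}
    {u : ℕ → ℕ → Fin a → Pairs 𝕜 n → 𝕜} {g : ℕ → ℕ → Fin b → Pairs 𝕜 n → 𝕜}
    {F : ℕ → Fin d → Pairs 𝕜 n → 𝕜}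
    (h : ∀ w, NetU a b (L w) (D w) (u w) (g w) ∧ ∀ o, F w o ∈ Free (D w) (g w) (L w)) :
    IsMeagre {x : Pairs 𝕜 n | ContDiffAt 𝕜 2 Φ (mm x) ∧
      Function.Surjective (fderiv 𝕜 Φ (mm x)) ∧ ∃ w, x ∈ D w ∧ (∀ o, F w o x = Φ (mm x) o) ∧
      ¬ n * (d - n) ≤ 4 * (min a b * ∑ l ∈ range (L w), ∑ i, (rkA (u w l i) x +
        rkB (u w l i) x))} := by
  let Z : ℕ → Set (Pairs 𝕜 n) := fun w => {y | ∀ o, F w o y = Φ (mm y) o}
  refine ((diff_meagre Z).union (singular_nowhere (𝕜 := 𝕜) (n := n)).isMeagre).mono ?_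
  rintro x ⟨hΦ, hsurj, w, hw, hF, hnot⟩
  by_cases hs : (Matrix.of x.1).det = 0 ∨ (Matrix.of x.2).det = 0
  · exact Or.inr hs
  push Not at hs
  refine Or.inl (Set.mem_iUnion.mpr ⟨w, hF, fun hx => hnot ?_⟩)
  refine function_point (h w).1 (h w).2 hw hΦ hsurj hs.1 hs.2 ?_
  refine right_nearby (isNetF_of_netU (h w).1) (h w).2 hw (fun o => ?_) hx
  filter_upwards [hΦ.eventually (by simp)] with C hC
  exact (contDiffAt_pi.mp hC o).continuousAt

end comm

section school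

variable {𝕜 : Type} [NontriviallyNormedField 𝕜] {n : ℕ}

/-- the derivative of an entry of the first matrix -/
lemma rkA_entryA (i k : Fin n) (x : Pairs 𝕜 n) : rkA (fun y : Pairs 𝕜 n => y.1 i k) x ≤ 1 := by
  unfold rkA
  have h1 : ∀ v : Pairs 𝕜 n, fderiv 𝕜 (fun y : Pairs 𝕜 n => y.1 i k) x v = v.1 i k := by
    intro v
    have e : (fun y : Pairs 𝕜 n => y.1 i k) = (pA i k : Pairs 𝕜 n →L[𝕜] 𝕜) := by
      funext y; exact (pA_apply i k y).symm
    rw [e, ContinuousLinearMap.fderiv, pA_apply]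
  have e : (Matrix.of fun p q : Fin n => fderiv 𝕜 (fun y : Pairs 𝕜 n => y.1 i k) x
      (fun k l => if k = p ∧ l = q then 1 else 0, 0)) = Matrix.single i k (1 : 𝕜) := by
    ext p q
    rw [Matrix.of_apply, h1]
    simp [Matrix.single_apply]
  rw [e]
  exact rank_single_le _ _

lemma rkB_entryA (i k : Fin n) (x : Pairs 𝕜 n) : rkB (fun y : Pairs 𝕜 n => y.1 i k) x = 0 := by
  unfold rkB
  have h1 : ∀ v : Pairs 𝕜 n, fderiv 𝕜 (fun y : Pairs 𝕜 n => y.1 i k) x v = v.1 i k := by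
    intro v
    have e : (fun y : Pairs 𝕜 n => y.1 i k) = (pA i k : Pairs 𝕜 n →L[𝕜] 𝕜) := by
      funext y; exact (pA_apply i k y).symm
    rw [e, ContinuousLinearMap.fderiv, pA_apply]
  have e : (Matrix.of fun p q : Fin n => fderiv 𝕜 (fun y : Pairs 𝕜 n => y.1 i k) x
      (0, fun k l => if k = p ∧ l = q then 1 else 0)) = 0 := by
    ext p q
    rw [Matrix.of_apply, h1]
    simp
  rw [e, Matrix.rank_zero]

lemma rkA_entryB (i k : Fin n) (x : Pairs 𝕜 n) : rkA (fun y : Pairs 𝕜 n => y.2 i k) x = 0 := by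
  unfold rkA
  have h1 : ∀ v : Pairs 𝕜 n, fderiv 𝕜 (fun y : Pairs 𝕜 n => y.2 i k) x v = v.2 i k := by
    intro v
    have e : (fun y : Pairs 𝕜 n => y.2 i k) = (pB i k : Pairs 𝕜 n →L[𝕜] 𝕜) := by
      funext y; exact (pB_apply i k y).symm
    rw [e, ContinuousLinearMap.fderiv, pB_apply]
  have e : (Matrix.of fun p q : Fin n => fderiv 𝕜 (fun y : Pairs 𝕜 n => y.2 i k) x
      (fun k l => if k = p ∧ l = q then 1 else 0, 0)) = 0 := by
    ext p q
    rw [Matrix.of_apply, h1]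
    simp
  rw [e, Matrix.rank_zero]

lemma rkB_entryB (i k : Fin n) (x : Pairs 𝕜 n) : rkB (fun y : Pairs 𝕜 n => y.2 i k) x ≤ 1 := by
  unfold rkB
  have h1 : ∀ v : Pairs 𝕜 n, fderiv 𝕜 (fun y : Pairs 𝕜 n => y.2 i k) x v = v.2 i k := by
    intro v
    have e : (fun y : Pairs 𝕜 n => y.2 i k) = (pB i k : Pairs 𝕜 n →L[𝕜] 𝕜) := by
      funext y; exact (pB_apply i k y).symm
    rw [e, ContinuousLinearMap.fderiv, pB_apply]
  have e : (Matrix.of fun p q : Fin n => fderiv 𝕜 (fun y : Pairs 𝕜 n => y.2 i k) x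
      (0, fun k l => if k = p ∧ l = q then 1 else 0)) = Matrix.single i k (1 : 𝕜) := by
    ext p q
    rw [Matrix.of_apply, h1]
    simp [Matrix.single_apply]
  rw [e]
  exact rank_single_le _ _

/-- **The school method.** -/
theorem school (n : ℕ) : ∃ (u : ℕ → Fin 2 → Pairs 𝕜 n → 𝕜) (g : ℕ → Fin 1 → Pairs 𝕜 n → 𝕜)
    (F : Fin n → Fin n → Pairs 𝕜 n → 𝕜), NetU 2 1 (n ^ 3) Set.univ u g ∧
      (∀ i j, F i j ∈ Free Set.univ g (n ^ 3)) ∧ ∀ x, (∀ i j, F i j x = mm x i j) ∧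
      ∑ l ∈ range (n ^ 3), ∑ i, rkA (u l i) x ≤ n ^ 3 ∧
      ∑ l ∈ range (n ^ 3), ∑ i, rkB (u l i) x ≤ n ^ 3 := by
  classical
  have hm : Fintype.card (Fin n × Fin n × Fin n) = n ^ 3 := by
    simp only [Fintype.card_prod, Fintype.card_fin]; ring
  let e : (Fin n × Fin n × Fin n) ≃ Fin (n ^ 3) := Fintype.equivFinOfCardEq hm
  -- gate `l` with `e.symm l = (i, j, k)` computes `a i j * b j k`
  let u : ℕ → Fin 2 → Pairs 𝕜 n → 𝕜 := fun l o x => if h : l < n ^ 3 then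
    (if o = 0 then x.1 (e.symm ⟨l, h⟩).1 (e.symm ⟨l, h⟩).2.1
      else x.2 (e.symm ⟨l, h⟩).2.1 (e.symm ⟨l, h⟩).2.2) else 0
  have hu0 : ∀ l (h : l < n ^ 3), u l 0 = fun x => x.1 (e.symm ⟨l, h⟩).1 (e.symm ⟨l, h⟩).2.1 := by
    intro l h
    funext x
    simp only [u]
    rw [dif_pos h]
    simp
  have hu1 : ∀ l (h : l < n ^ 3), u l 1 = fun x => x.2 (e.symm ⟨l, h⟩).2.1 (e.symm ⟨l, h⟩).2.2 := by
    intro l h
    funext x
    simp only [u]
    rw [dif_pos h]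
    exact if_neg (by decide)
  let g : ℕ → Fin 1 → Pairs 𝕜 n → 𝕜 := fun l _ x => u l 0 x * u l 1 x
  let F : Fin n → Fin n → Pairs 𝕜 n → 𝕜 := fun i k => ∑ j, g (e (i, j, k)) 0
  refine ⟨u, g, F, ⟨isOpen_univ, ?_⟩, ?_, ?_⟩
  · intro l hl
    refine ⟨?_, fun v _ => v 0 * v 1, ?_⟩
    · intro i
      refine Submodule.subset_span ?_
      have hi : i = 0 ∨ i = 1 := by omega
      rcases hi with rfl | rfl
      · refine Or.inl ⟨fun C => C (e.symm ⟨l, hl⟩).1 (e.symm ⟨l, hl⟩).2.1, fun x _ => ?_, hu0 l hl⟩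
        have h1 : ContDiff 𝕜 2 fun C : Fin n → Fin n → 𝕜 =>
            C (e.symm ⟨l, hl⟩).1 (e.symm ⟨l, hl⟩).2.1 := contDiff_apply_apply 𝕜 𝕜 _ _
        exact h1.contDiffAt
      · refine Or.inr (Or.inl ⟨fun C => C (e.symm ⟨l, hl⟩).2.1 (e.symm ⟨l, hl⟩).2.2,
          fun x _ => ?_, hu1 l hl⟩)
        have h1 : ContDiff 𝕜 2 fun C : Fin n → Fin n → 𝕜 =>
            C (e.symm ⟨l, hl⟩).2.1 (e.symm ⟨l, hl⟩).2.2 := contDiff_apply_apply 𝕜 𝕜 _ _
        exact h1.contDiffAt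
    · intro x _
      refine ⟨?_, fun o => by simp [g]⟩
      refine contDiffAt_pi.mpr fun o => ?_
      have h0 : ContDiff 𝕜 2 fun v : Fin 2 → 𝕜 => v 0 := contDiff_apply 𝕜 𝕜 _
      have h1 : ContDiff 𝕜 2 fun v : Fin 2 → 𝕜 => v 1 := contDiff_apply 𝕜 𝕜 _
      exact (h0.mul h1).contDiffAt
  · intro i k
    refine Submodule.sum_mem _ fun j _ => ?_
    exact Submodule.subset_span (Or.inr (Or.inr ⟨e (i, j, k), (e (i, j, k)).2, 0, rfl⟩))
  · intro x
    refine ⟨fun i k => ?_, ?_, ?_⟩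
    · simp only [F, Finset.sum_apply, g, mm]
      refine Finset.sum_congr rfl fun j _ => ?_
      rw [hu0 _ (e (i, j, k)).2, hu1 _ (e (i, j, k)).2]
      simp
    · calc ∑ l ∈ range (n ^ 3), ∑ i, rkA (u l i) x ≤ ∑ l ∈ range (n ^ 3), 1 := by
            refine Finset.sum_le_sum fun l hl => ?_
            rw [Finset.mem_range] at hl
            rw [Fin.sum_univ_two, hu0 l hl, hu1 l hl, rkA_entryB, add_zero]
            exact rkA_entryA _ _ _
        _ = n ^ 3 := by simp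
    · calc ∑ l ∈ range (n ^ 3), ∑ i, rkB (u l i) x ≤ ∑ l ∈ range (n ^ 3), 1 := by
            refine Finset.sum_le_sum fun l hl => ?_
            rw [Finset.mem_range] at hl
            rw [Fin.sum_univ_two, hu0 l hl, hu1 l hl, rkB_entryA, zero_add]
            exact rkB_entryB _ _ _
        _ = n ^ 3 := by simp

end school

end Pool.Agent.Y538.Fun
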