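import Pool.Agent.Y538.Fun.Defs
import Pool.Agent.Y538.Net.Main

/-!
# Mixed second derivatives
-/

set_option autoImplicit false
set_option linter.unusedSectionVars false

namespace Pool.Agent.Y538.Fun

open Topology Filter Pool.Agent.Y538.Net

variable {𝕜 : Type} [NontriviallyNormedField 𝕜] {n a b L d : ℕ}

lemma H2_apply {E : Type} [NormedAddCommGroup E] [NormedSpace 𝕜 E] {f : E → 𝕜} {x : E}
    (h : DifferentiableAt 𝕜 (fderiv 𝕜 f) x) (h1 h2 : E) :
    H2 f x h1 h2 = fderiv 𝕜 (fun y => fderiv 𝕜 f y h2) x h1 := by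
  unfold H2
  have e := (h.hasFDerivAt.clm_apply (hasFDerivAt_const h2 x)).fderiv
  rw [e]
  simp

lemma fst_contDiff {φ : (Fin n → Fin n → 𝕜) → 𝕜} {x : Pairs 𝕜 n} (h : ContDiffAt 𝕜 2 φ x.1) :
    ContDiffAt 𝕜 2 (fun y : Pairs 𝕜 n => φ y.1) x :=
  ContDiffAt.comp (g := φ) x h contDiffAt_fst

lemma snd_contDiff {φ : (Fin n → Fin n → 𝕜) → 𝕜} {x : Pairs 𝕜 n} (h : ContDiffAt 𝕜 2 φ x.2) :
    ContDiffAt 𝕜 2 (fun y : Pairs 𝕜 n => φ y.2) x :=
  ContDiffAt.comp (g := φ) x h contDiffAt_snd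

lemma mixed_fst {φ : (Fin n → Fin n → 𝕜) → 𝕜} {x : Pairs 𝕜 n} (h : ContDiffAt 𝕜 2 φ x.1)
    (h1 k : Fin n → Fin n → 𝕜) : H2 (fun y : Pairs 𝕜 n => φ y.1) x (h1, 0) (0, k) = 0 := by
  rw [H2_apply (diff2 (fst_contDiff h))]
  have e : (fun y : Pairs 𝕜 n => fderiv 𝕜 (fun y : Pairs 𝕜 n => φ y.1) y (0, k)) =ᶠ[𝓝 x]
      fun _ => 0 := by
    have h2 : ∀ᶠ y : Pairs 𝕜 n in 𝓝 x, DifferentiableAt 𝕜 φ y.1 :=
      (continuousAt_fst (p := x)).eventually (ev1 h)
    filter_upwards [h2] with y hy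
    have h3 := (hy.hasFDerivAt.comp y (hasFDerivAt_fst (𝕜 := 𝕜) (p := y))).fderiv
    have h4 : fderiv 𝕜 (fun y : Pairs 𝕜 n => φ y.1) y =
      (fderiv 𝕜 φ y.1).comp (ContinuousLinearMap.fst 𝕜 _ _) := h3
    rw [h4, ContinuousLinearMap.comp_apply]
    simp
  rw [e.fderiv_eq]
  simp

lemma mixed_snd {φ : (Fin n → Fin n → 𝕜) → 𝕜} {x : Pairs 𝕜 n} (h : ContDiffAt 𝕜 2 φ x.2)
    (h1 k : Fin n → Fin n → 𝕜) : H2 (fun y : Pairs 𝕜 n => φ y.2) x (h1, 0) (0, k) = 0 := by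
  rw [H2_apply (diff2 (snd_contDiff h))]
  have e : (fun y : Pairs 𝕜 n => fderiv 𝕜 (fun y : Pairs 𝕜 n => φ y.2) y (0, k)) =ᶠ[𝓝 x]
      fun y => fderiv 𝕜 φ y.2 k := by
    have h2 : ∀ᶠ y : Pairs 𝕜 n in 𝓝 x, DifferentiableAt 𝕜 φ y.2 :=
      (continuousAt_snd (p := x)).eventually (ev1 h)
    filter_upwards [h2] with y hy
    have h3 := (hy.hasFDerivAt.comp y (hasFDerivAt_snd (𝕜 := 𝕜) (p := y))).fderiv
    have h4 : fderiv 𝕜 (fun y : Pairs 𝕜 n => φ y.2) y =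
      (fderiv 𝕜 φ y.2).comp (ContinuousLinearMap.snd 𝕜 _ _) := h3
    rw [h4, ContinuousLinearMap.comp_apply]
    simp
  rw [e.fderiv_eq]
  have h5 : DifferentiableAt 𝕜 (fun C => fderiv 𝕜 φ C k) x.2 :=
    (diff2 h).clm_apply (differentiableAt_const _)
  have h6 := (h5.hasFDerivAt.comp x (hasFDerivAt_snd (𝕜 := 𝕜) (p := x))).fderiv
  have h7 : fderiv 𝕜 (fun y : Pairs 𝕜 n => fderiv 𝕜 φ y.2 k) x =
    (fderiv 𝕜 (fun C => fderiv 𝕜 φ C k) x.2).comp (ContinuousLinearMap.snd 𝕜 _ _) := h6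
  rw [h7, ContinuousLinearMap.comp_apply]
  simp

lemma free_contDiff {D : Set (Pairs 𝕜 n)} {g : ℕ → Fin b → Pairs 𝕜 n → 𝕜} {x : Pairs 𝕜 n}
    (hx : x ∈ D) {l : ℕ} (hg : ∀ s < l, ∀ o, ContDiffAt 𝕜 2 (g s o) x) :
    ∀ f ∈ Free D g l, ContDiffAt 𝕜 2 f x := by
  intro f hf
  unfold Free at hf
  induction hf using Submodule.span_induction with
  | mem f hf =>
    rcases hf with ⟨φ, hφ, rfl⟩ | ⟨φ, hφ, rfl⟩ | ⟨s, hs, o, rfl⟩
    · exact fst_contDiff (hφ x hx)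
    · exact snd_contDiff (hφ x hx)
    · exact hg s hs o
  | zero => exact contDiffAt_const (c := (0 : 𝕜))
  | add f f' _ _ h h' => exact h.add h'
  | smul c f _ h => exact h.const_smul c

lemma gatesF_contDiff {D : Set (Pairs 𝕜 n)} {g : ℕ → Fin b → Pairs 𝕜 n → 𝕜}
    (hnet : IsNetF a b L D g) {x : Pairs 𝕜 n}
    (hx : x ∈ D) : ∀ s < L, ∀ o, ContDiffAt 𝕜 2 (g s o) x := by
  intro s
  induction s using Nat.strong_induction_on with
  | _ s ih =>
    intro hs o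
    obtain ⟨u, φ, hu, hφ⟩ := hnet.2 s hs
    have h1 : ∀ i, ContDiffAt 𝕜 2 (u i) x := fun i =>
      free_contDiff hx (fun s' hs' o' => ih s' hs' (hs'.trans hs) o') _ (hu i)
    have h2 : ContDiffAt 𝕜 2 (fun y => φ (fun i => u i y) o) x := by
      have h3 : ContDiffAt 𝕜 2 (fun y => (fun i => u i y)) x := contDiffAt_pi.mpr h1
      have h4 := (hφ x hx).1.comp x h3
      exact (contDiffAt_pi.mp h4) o
    refine h2.congr_of_eventuallyEq ?_
    filter_upwards [hnet.1.mem_nhds hx] with y hy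
    exact (hφ y hy).2 o

/-- The mixed quadratic terms contributed by the gates. -/
lemma netF_hess {D : Set (Pairs 𝕜 n)} {g : ℕ → Fin b → Pairs 𝕜 n → 𝕜}
    (hnet : IsNetF a b L D g) {x : Pairs 𝕜 n} (hx : x ∈ D) :
    ∃ (U V : ℕ → Fin a → (Fin n → Fin n → 𝕜) →L[𝕜] 𝕜) (β : ℕ → Fin b → Fin a → Fin a → 𝕜),
      ∀ f ∈ Free D g L, ∃ C : ℕ → Fin b → 𝕜, ∀ h k, H2 f x (h, 0) (0, k) =
        ∑ s ∈ Finset.range L, ∑ o, C s o * ∑ i, ∑ j, β s o i j * (U s j h * V s i k) := by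
  classical
  -- the data of the gates
  have hgd := gatesF_contDiff hnet hx
  have hdata : ∀ s, ∃ (u : Fin a → Pairs 𝕜 n → 𝕜), s < L → (∀ i, u i ∈ Free D g s) ∧
      ∀ o, ∃ (c : Fin a → 𝕜) (β : Fin a → Fin a → 𝕜), ∀ h1 h2 : Pairs 𝕜 n,
        H2 (g s o) x h1 h2 = ∑ i, c i * H2 (u i) x h1 h2 +
          ∑ i, ∑ j, β i j * (fderiv 𝕜 (u j) x h1 * fderiv 𝕜 (u i) x h2) := by
    intro s
    by_cases hs : s < L
    swap
    · exact ⟨fun _ _ => 0, fun h => absurd h hs⟩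
    obtain ⟨u, φ, hu, hφ⟩ := hnet.2 s hs
    refine ⟨u, fun _ => ⟨hu, fun o => ?_⟩⟩
    have h1 : ∀ i, ContDiffAt 𝕜 2 (u i) x := fun i =>
      free_contDiff hx (fun s' hs' o' => hgd s' (hs'.trans hs) o') _ (hu i)
    have h2 : ContDiffAt 𝕜 2 (fun y => φ y o) (fun i => u i x) :=
      (contDiffAt_pi.mp (hφ x hx).1) o
    obtain ⟨c, β, h⟩ := H2_comp h1 h2
    refine ⟨c, β, fun h1 h2 => ?_⟩
    rw [← h]
    have h3 : g s o =ᶠ[𝓝 x] fun y => φ (fun i => u i y) o := by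
      filter_upwards [hnet.1.mem_nhds hx] with y hy
      exact (hφ y hy).2 o
    rw [H2_congr h3]
  choose u hu using hdata
  have hdata2 : ∀ s o, ∃ (c : Fin a → 𝕜) (β : Fin a → Fin a → 𝕜), s < L → ∀ h1 h2 : Pairs 𝕜 n,
        H2 (g s o) x h1 h2 = ∑ i, c i * H2 (u s i) x h1 h2 +
          ∑ i, ∑ j, β i j * (fderiv 𝕜 (u s j) x h1 * fderiv 𝕜 (u s i) x h2) := by
    intro s o
    by_cases hs : s < L
    · obtain ⟨c, β, h⟩ := (hu s hs).2 o
      exact ⟨c, β, fun _ => h⟩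
    · exact ⟨0, 0, fun h => absurd h hs⟩
  choose c β hβ using hdata2
  refine ⟨fun s i => (fderiv 𝕜 (u s i) x).comp (ContinuousLinearMap.inl 𝕜 _ _),
    fun s i => (fderiv 𝕜 (u s i) x).comp (ContinuousLinearMap.inr 𝕜 _ _), β, ?_⟩
  -- the span of the quadratic terms
  let M := Fin n → Fin n → 𝕜
  let q : ℕ → Fin b → (M → M → 𝕜) := fun s o h k =>
    ∑ i, ∑ j, β s o i j * (fderiv 𝕜 (u s j) x (h, 0) * fderiv 𝕜 (u s i) x (0, k))
  let Q : ℕ → Submodule 𝕜 (M → M → 𝕜) := fun l => Submodule.span 𝕜 {f | ∃ s < l, ∃ o, f = q s o}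
  have hQmono : ∀ {l l' : ℕ}, l ≤ l' → Q l ≤ Q l' := fun h =>
    Submodule.span_mono fun f ⟨s, hs, o, e⟩ => ⟨s, by omega, o, e⟩
  have hstep : ∀ l ≤ L, (∀ s < l, ∀ o, (fun h k => H2 (g s o) x (h, 0) (0, k)) ∈ Q l) →
      ∀ f ∈ Free D g l, (fun h k => H2 f x (h, 0) (0, k)) ∈ Q l := by
    intro l hl hgates f hf
    have hcd := free_contDiff (D := D) hx (l := l) (g := g)
      (fun s hs o => hgd s (by omega) o)
    have hf' := hf
    unfold Free at hf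
    induction hf using Submodule.span_induction with
    | mem f hf =>
      rcases hf with ⟨φ, hφ, rfl⟩ | ⟨φ, hφ, rfl⟩ | ⟨s, hs, o, rfl⟩
      · have : (fun h k => H2 (fun y : Pairs 𝕜 n => φ y.1) x (h, 0) (0, k)) = (0 : M → M → 𝕜) := by
          funext h k
          rw [mixed_fst (hφ x hx)]
          rfl
        rw [this]
        exact Submodule.zero_mem _
      · have : (fun h k => H2 (fun y : Pairs 𝕜 n => φ y.2) x (h, 0) (0, k)) = (0 : M → M → 𝕜) := by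
          funext h k
          rw [mixed_snd (hφ x hx)]
          rfl
        rw [this]
        exact Submodule.zero_mem _
      · exact hgates s hs o
    | zero =>
      have : H2 (0 : Pairs 𝕜 n → 𝕜) x = 0 := by
        have h := H2_affine (E := Pairs 𝕜 n) (0 : Pairs 𝕜 n →L[𝕜] 𝕜) 0 x
        have e : (fun y : Pairs 𝕜 n => (0 : Pairs 𝕜 n →L[𝕜] 𝕜) y + 0) = (0 : Pairs 𝕜 n → 𝕜) := by
          funext y; simp
        rw [e] at h
        exact h
      rw [this]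
      exact Submodule.zero_mem _
    | add f f' h1 h2 h h' =>
      rw [H2_add (hcd f h1) (hcd f' h2)]
      exact Submodule.add_mem _ (h h1) (h' h2)
    | smul c f h1 h =>
      rw [H2_smul c (hcd f h1)]
      exact Submodule.smul_mem _ c (h h1)
  have hgates : ∀ s < L, ∀ o, (fun h k => H2 (g s o) x (h, 0) (0, k)) ∈ Q (s + 1) := by
    intro s
    induction s using Nat.strong_induction_on with
    | _ s ih =>
      intro hs o
      have h1 : ∀ i, (fun h k => H2 (u s i) x (h, 0) (0, k)) ∈ Q s := by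
        intro i
        refine hstep s hs.le (fun s' hs' o' => ?_) _ ((hu s hs).1 i)
        exact hQmono (by omega) (ih s' hs' (by omega) o')
      have h2 : (fun h k => H2 (g s o) x (h, 0) (0, k)) =
          ∑ i, c s o i • (fun h k => H2 (u s i) x (h, 0) (0, k)) + q s o := by
        funext h1 h2
        rw [hβ s o hs (h1, 0) (0, h2)]
        simp only [Pi.add_apply, Finset.sum_apply, Pi.smul_apply, smul_eq_mul, q]
      rw [h2]
      refine Submodule.add_mem _ (Submodule.sum_mem _ fun i _ =>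
        Submodule.smul_mem _ _ (hQmono (Nat.le_succ s) (h1 i))) ?_
      exact Submodule.subset_span ⟨s, Nat.lt_succ_self s, o, rfl⟩
  intro f hf
  have hf1 : (fun h k => H2 f x (h, 0) (0, k)) ∈ Q L :=
    hstep L le_rfl (fun s hs o => hQmono (by omega) (hgates s hs o)) f hf
  -- extraction of coefficients
  have hrep : ∀ F ∈ Q L, ∃ C : ℕ → Fin b → 𝕜, F = ∑ s ∈ Finset.range L, ∑ o, C s o • q s o := by
    intro F hF
    induction hF using Submodule.span_induction with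
    | mem F hF =>
      obtain ⟨s, hs, o, rfl⟩ := hF
      refine ⟨fun s' o' => if s' = s ∧ o' = o then 1 else 0, ?_⟩
      rw [Finset.sum_eq_single s, Finset.sum_eq_single o]
      · simp
      · intro o' _ ho'; simp [ho']
      · simp
      · intro s' _ hs'; simp [hs']
      · intro h; exact absurd (Finset.mem_range.mpr hs) h
    | zero => exact ⟨0, by simp⟩
    | add F F' _ _ hF hF' =>
      obtain ⟨C, rfl⟩ := hF
      obtain ⟨C', rfl⟩ := hF'
      exact ⟨C + C', by simp only [Pi.add_apply, add_smul, Finset.sum_add_distrib]⟩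
    | smul c F _ hF =>
      obtain ⟨C, rfl⟩ := hF
      exact ⟨c • C, by simp only [Pi.smul_apply, smul_assoc, Finset.smul_sum]⟩
  obtain ⟨C, hC⟩ := hrep _ hf1
  refine ⟨C, fun h k => ?_⟩
  have := congrFun (congrFun hC h) k
  rw [this]
  simp only [Finset.sum_apply, Pi.smul_apply, smul_eq_mul, q, ContinuousLinearMap.comp_apply,
    ContinuousLinearMap.inl_apply, ContinuousLinearMap.inr_apply]

/-- The derivative of the product. -/
noncomputable def dmm (x : Pairs 𝕜 n) : Pairs 𝕜 n →L[𝕜] (Fin n → Fin n → 𝕜) :=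
  ContinuousLinearMap.pi fun i => ContinuousLinearMap.pi fun j =>
    ∑ k, (x.1 i k • pB k j + x.2 k j • pA i k)

lemma dmm_apply (x h : Pairs 𝕜 n) : dmm x h = mm (x.1, h.2) + mm (h.1, x.2) := by
  funext i j
  simp only [dmm, ContinuousLinearMap.coe_pi', mm, Pi.add_apply, _root_.sum_apply,
    _root_.add_apply, _root_.smul_apply, smul_eq_mul, pA_apply, pB_apply]
  rw [← Finset.sum_add_distrib]
  exact Finset.sum_congr rfl fun k _ => by ring

lemma hasFDerivAt_mm (x : Pairs 𝕜 n) : HasFDerivAt (fun y : Pairs 𝕜 n => mm y) (dmm x) x := by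
  unfold mm dmm
  refine hasFDerivAt_pi.mpr fun i => hasFDerivAt_pi.mpr fun j => ?_
  refine HasFDerivAt.fun_sum fun k _ => ?_
  exact ((pA i k).hasFDerivAt (x := x)).mul ((pB k j).hasFDerivAt (x := x))

lemma contDiff_mm : ContDiff 𝕜 2 (fun y : Pairs 𝕜 n => mm y) := by
  unfold mm
  refine contDiff_pi.mpr fun i => contDiff_pi.mpr fun j => ContDiff.sum fun k _ => ?_
  exact (pA (𝕜 := 𝕜) i k).contDiff.mul (pB (𝕜 := 𝕜) k j).contDiff

lemma mm_zero_right (A : Fin n → Fin n → 𝕜) : mm (A, 0) = 0 := by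
  funext i j; simp [mm]

lemma mm_zero_left (A : Fin n → Fin n → 𝕜) : mm (0, A) = 0 := by
  funext i j; simp [mm]

/-- The mixed second derivative of a function of the product. -/
lemma mixed_mm {φ : (Fin n → Fin n → 𝕜) → 𝕜} {x : Pairs 𝕜 n} (hφ : ContDiffAt 𝕜 2 φ (mm x))
    (h k : Fin n → Fin n → 𝕜) : H2 (fun y : Pairs 𝕜 n => φ (mm y)) x (h, 0) (0, k) =
      fderiv 𝕜 φ (mm x) (mm (h, k)) +
        fderiv 𝕜 (fderiv 𝕜 φ) (mm x) (mm (h, x.2)) (mm (x.1, k)) := by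
  have hcd : ContDiffAt 𝕜 2 (fun y : Pairs 𝕜 n => φ (mm y)) x :=
    ContDiffAt.comp (g := φ) x hφ contDiff_mm.contDiffAt
  have hcont : ContinuousAt (fun y : Pairs 𝕜 n => mm y) x := (hasFDerivAt_mm x).continuousAt
  rw [H2_apply (diff2 hcd)]
  have e : (fun y : Pairs 𝕜 n => fderiv 𝕜 (fun y : Pairs 𝕜 n => φ (mm y)) y (0, k)) =ᶠ[𝓝 x]
      fun y => fderiv 𝕜 φ (mm y) (mm (y.1, k)) := by
    have h2 : ∀ᶠ y : Pairs 𝕜 n in 𝓝 x, DifferentiableAt 𝕜 φ (mm y) := hcont.eventually (ev1 hφ)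
    filter_upwards [h2] with y hy
    have h3 := (hy.hasFDerivAt.comp y (hasFDerivAt_mm y)).fderiv
    have h4 : fderiv 𝕜 (fun y : Pairs 𝕜 n => φ (mm y)) y = (fderiv 𝕜 φ (mm y)).comp (dmm y) := h3
    rw [h4, ContinuousLinearMap.comp_apply, dmm_apply]
    simp only [mm_zero_left, add_zero]
  rw [e.fderiv_eq]
  have h5 : HasFDerivAt (fun y : Pairs 𝕜 n => fderiv 𝕜 φ (mm y))
      ((fderiv 𝕜 (fderiv 𝕜 φ) (mm x)).comp (dmm x)) x :=
    (diff2 hφ).hasFDerivAt.comp x (hasFDerivAt_mm x)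
  have h6 : HasFDerivAt (fun y : Pairs 𝕜 n => mm (y.1, k))
      ((dmm (x.1, k)).comp ((ContinuousLinearMap.inl 𝕜 _ _).comp
        (ContinuousLinearMap.fst 𝕜 _ _))) x := by
    have h7 : HasFDerivAt (fun y : Pairs 𝕜 n => ((y.1, k) : Pairs 𝕜 n))
        ((ContinuousLinearMap.inl 𝕜 _ _).comp (ContinuousLinearMap.fst 𝕜 _ _)) x := by
      have h8 := (hasFDerivAt_fst (𝕜 := 𝕜) (p := x)).prodMk
        (hasFDerivAt_const (𝕜 := 𝕜) k x)
      refine h8.congr_fderiv ?_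
      refine ContinuousLinearMap.ext fun y => ?_
      simp
    exact (hasFDerivAt_mm (x.1, k)).comp x h7
  have h9 := (h5.clm_apply h6).fderiv
  rw [h9]
  simp only [_root_.add_apply, ContinuousLinearMap.comp_apply, ContinuousLinearMap.flip_apply,
    ContinuousLinearMap.coe_fst', ContinuousLinearMap.inl_apply, dmm_apply, mm_zero_right,
    zero_add]

end Pool.Agent.Y538.Fun
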