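import Pool.Agent.Y538.Fun.Hess
import Pool.Agent.Y538.Fun.Deg

/-!
# Networks computing functions of a product of two matrices: the lower bound
-/

set_option autoImplicit false
set_option linter.unusedSectionVars false

namespace Pool.Agent.Y538.Fun

open Topology Filter Finset Pool.Agent.Y538.Net Pool.Agent.H515R2.MMR Pool.Agent.W329.AR
open Pool.Agent.Y538.Par (two_le_omega)

section quad

variable {α β γ κ : Type} [Fintype κ] {a b : ℕ}

lemma D_of_quad (T : α → β → γ → ℂ) (X : κ → Fin a → α → ℂ) (Y : κ → Fin a → β → ℂ)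
    (C : κ → Fin b → γ → ℂ) (B : κ → Fin b → Fin a → Fin a → ℂ)
    (H : ∀ x y z, T x y z = ∑ s, ∑ o, C s o z * ∑ i, ∑ j, B s o i j * (X s j x * Y s i y)) :
    D T (Fintype.card κ) a 1 a ∧ D T (Fintype.card κ) 1 a b := by
  constructor
  · refine ⟨κ, Fin a, Unit, Fin a, inferInstance, inferInstance, inferInstance,
      inferInstance, fun s x => Matrix.of fun j _ => X s j x,
      fun s y => Matrix.of fun _ i => Y s i y,
      fun s z => Matrix.of fun i j => ∑ o, C s o z * B s o i j, rfl, by simp, by simp,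
      by simp, fun x y z => ?_⟩
    rw [H]
    refine Finset.sum_congr rfl fun s _ => ?_
    simp only [Matrix.trace, Matrix.diag, Matrix.mul_apply, Matrix.of_apply,
      Finset.univ_unique, Finset.sum_singleton, Finset.mul_sum]
    calc ∑ o, ∑ i, ∑ j, C s o z * (B s o i j * (X s j x * Y s i y))
        = ∑ i, ∑ o, ∑ j, C s o z * (B s o i j * (X s j x * Y s i y)) := by
          rw [Finset.sum_comm]
      _ = ∑ i, ∑ j, ∑ o, C s o z * (B s o i j * (X s j x * Y s i y)) := by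
          refine Finset.sum_congr rfl fun i _ => ?_
          rw [Finset.sum_comm]
      _ = ∑ j, ∑ i, ∑ o, C s o z * (B s o i j * (X s j x * Y s i y)) := by
          rw [Finset.sum_comm]
      _ = _ := by
          refine Finset.sum_congr rfl fun j _ => Finset.sum_congr rfl fun i _ =>
            Finset.sum_congr rfl fun o _ => by ring
  · refine ⟨κ, Unit, Fin a, Fin b, inferInstance, inferInstance, inferInstance,
      inferInstance, fun s x => Matrix.of fun _ j => X s j x,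
      fun s y => Matrix.of fun j o => ∑ i, B s o i j * Y s i y,
      fun s z => Matrix.of fun o _ => C s o z, rfl, by simp, by simp,
      by simp, fun x y z => ?_⟩
    rw [H]
    refine Finset.sum_congr rfl fun s _ => ?_
    simp only [Matrix.trace, Matrix.diag, Matrix.mul_apply, Matrix.of_apply,
      Finset.univ_unique, Finset.sum_singleton, Finset.mul_sum, Finset.sum_mul]
    refine Finset.sum_congr rfl fun o _ => ?_
    rw [Finset.sum_comm]
    refine Finset.sum_congr rfl fun j _ => Finset.sum_congr rfl fun i _ => by ring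

end quad

section main

variable {𝕜 : Type} {n a b L d : ℕ}

/-- Pairs of invertible matrices are dense. -/
lemma exists_invertible [NontriviallyNormedField 𝕜] {O : Set (Pairs 𝕜 n)} (hO : IsOpen O)
    {x : Pairs 𝕜 n} (hx : x ∈ O) :
    ∃ y ∈ O, (Matrix.of y.1).det ≠ 0 ∧ (Matrix.of y.2).det ≠ 0 := by
  classical
  have h1 : ∀ A : Matrix (Fin n) (Fin n) 𝕜, ∀ᶠ t : 𝕜 in 𝓝[≠] 0, (A + t • 1).det ≠ 0 := by
    intro A
    have h2 : ∀ᶠ t : 𝕜 in cofinite, (A + t • 1).det ≠ 0 := by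
      have h3 : {t : 𝕜 | ¬ (A + t • 1).det ≠ 0} ⊆ ((-A).charpoly.roots.toFinset : Set 𝕜) := by
        intro t ht
        rw [Set.mem_ofPred_eq, not_not] at ht
        rw [Finset.mem_coe, Multiset.mem_toFinset, Polynomial.mem_roots
          ((-A).charpoly_monic.ne_zero), Polynomial.IsRoot, Matrix.eval_charpoly]
        rw [← ht]
        congr 1
        rw [sub_neg_eq_add, add_comm, Matrix.scalar_apply, ← Matrix.smul_one_eq_diagonal]
      exact (Finset.finite_toSet _).subset h3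
    exact h2.filter_mono (nhdsNE_le_cofinite _)
  let J : Fin n → Fin n → 𝕜 := fun i j => (1 : Matrix (Fin n) (Fin n) 𝕜) i j
  have h2 : ∀ᶠ t : 𝕜 in 𝓝[≠] 0, ((x.1 + t • J, x.2 + t • J) : Pairs 𝕜 n) ∈ O := by
    have hc : Continuous fun t : 𝕜 => ((x.1 + t • J, x.2 + t • J) : Pairs 𝕜 n) := by
      have hc1 : Continuous fun t : 𝕜 => t • J := continuous_id.smul continuous_const
      exact (continuous_const.add hc1).prodMk (continuous_const.add hc1)
    have h3 : ((x.1 + (0 : 𝕜) • J, x.2 + (0 : 𝕜) • J) : Pairs 𝕜 n) ∈ O := by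
      rw [zero_smul, add_zero, add_zero]
      exact hx
    exact (hc.continuousAt.eventually (hO.mem_nhds h3)).filter_mono nhdsWithin_le_nhds
  obtain ⟨t, ht1, ht2, ht3⟩ := ((h1 (Matrix.of x.1)).and ((h1 (Matrix.of x.2)).and h2)).exists
  exact ⟨_, ht3, ht1, ht2⟩

/-- A network that is right on a nonempty open set. -/
lemma exists_openF [NontriviallyNormedField 𝕜] {Φ : (Fin n → Fin n → 𝕜) → Fin d → 𝕜}
    (h : SolvesF 𝕜 n a b L d Φ) : ∃ (D : Set (Pairs 𝕜 n)) (g : ℕ → Fin b → Pairs 𝕜 n → 𝕜)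
    (F : Fin d → Pairs 𝕜 n → 𝕜) (x : Pairs 𝕜 n), IsNetF a b L D g ∧
      (∀ o, F o ∈ Free D g L) ∧ x ∈ D ∧ ContDiffAt 𝕜 2 Φ (mm x) ∧
      Function.Surjective (fderiv 𝕜 Φ (mm x)) ∧ (Matrix.of x.1).det ≠ 0 ∧
      (Matrix.of x.2).det ≠ 0 ∧ ∀ᶠ y in 𝓝 x, ∀ o, F o y = Φ (mm y) o := by
  obtain ⟨D, g, F, hnet, hm⟩ := h
  let Z : ℕ → Set (Pairs 𝕜 n) := fun w =>
    {x | ContDiffAt 𝕜 2 Φ (mm x) ∧ Function.Surjective (fderiv 𝕜 Φ (mm x)) ∧ x ∈ D w ∧
      ∀ o, F w o x = Φ (mm x) o}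
  have e : {x : Pairs 𝕜 n | ContDiffAt 𝕜 2 Φ (mm x) ∧
        Function.Surjective (fderiv 𝕜 Φ (mm x)) ∧ ∃ w, x ∈ D w ∧ ∀ o, F w o x = Φ (mm x) o} =
      ⋃ w, Z w := by
    ext x
    simp only [Z, Set.mem_ofPred_eq, Set.mem_iUnion]
    constructor
    · rintro ⟨h1, h2, w, h3, h4⟩; exact ⟨w, h1, h2, h3, h4⟩
    · rintro ⟨w, h1, h2, h3, h4⟩; exact ⟨h1, h2, w, h3, h4⟩
  rw [e] at hm
  obtain ⟨w, hw⟩ : ∃ w, ¬ IsMeagre (Z w) := by
    by_contra hcon
    push Not at hcon
    exact hm (isMeagre_iUnion hcon)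
  have hnd : ¬ IsNowhereDense (Z w) := fun h => hw h.isMeagre
  unfold IsNowhereDense at hnd
  obtain ⟨y, hy⟩ := Set.nonempty_iff_ne_empty.mpr hnd
  obtain ⟨y1, hy1, hdA, hdB⟩ := exists_invertible isOpen_interior hy
  have hcA : Continuous fun x : Pairs 𝕜 n => (Matrix.of x.1).det :=
    Continuous.matrix_det (A := fun x : Pairs 𝕜 n => Matrix.of x.1) continuous_fst
  have hcB : Continuous fun x : Pairs 𝕜 n => (Matrix.of x.2).det :=
    Continuous.matrix_det (A := fun x : Pairs 𝕜 n => Matrix.of x.2) continuous_snd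
  have hG : IsOpen (interior (closure (Z w)) ∩ {x : Pairs 𝕜 n | (Matrix.of x.1).det ≠ 0 ∧
      (Matrix.of x.2).det ≠ 0}) := by
    refine isOpen_interior.inter ?_
    exact (isOpen_ne_fun hcA continuous_const).inter (isOpen_ne_fun hcB continuous_const)
  -- a point of `Z w` in this set
  obtain ⟨x, hx1, hx2⟩ := mem_closure_iff.mp (interior_subset hy1) _ hG ⟨hy1, hdA, hdB⟩
  have hcont : ∀ z ∈ D w, ∀ o, ContinuousAt (F w o) z := fun z hz o =>
    (free_contDiff hz (gatesF_contDiff (hnet w).1 hz) _ ((hnet w).2 o)).continuousAt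
  refine ⟨D w, g w, F w, x, (hnet w).1, (hnet w).2, hx2.2.2.1, hx2.1, hx2.2.1, hx1.2.1, hx1.2.2, ?_⟩
  have hev : ∀ᶠ z in 𝓝 x, ContDiffAt 𝕜 2 Φ (mm z) :=
    (contDiff_mm.continuous.continuousAt (x := x)).eventually (hx2.1.eventually (by norm_num))
  filter_upwards [isOpen_interior.mem_nhds hx1.1, (hnet w).1.1.mem_nhds hx2.2.2.1, hev]
    with z hz1 hz2 hz3'
  intro o
  have hz3 : z ∈ closure (Z w) := interior_subset hz1
  have hcont2 : ContinuousAt (fun y : Pairs 𝕜 n => Φ (mm y) o) z := by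
    have h1 : ContinuousAt (fun C => Φ C o) (mm z) :=
      (continuousAt_pi.mp hz3'.continuousAt) o
    exact ContinuousAt.comp (g := fun C => Φ C o) h1 contDiff_mm.continuous.continuousAt
  have : NeBot (𝓝[Z w] z) := mem_closure_iff_nhdsWithin_neBot.mp hz3
  have t1 : Tendsto (F w o) (𝓝[Z w] z) (𝓝 (F w o z)) :=
    (hcont z hz2 o).mono_left nhdsWithin_le_nhds
  have t2 : Tendsto (F w o) (𝓝[Z w] z) (𝓝 (Φ (mm z) o)) := by
    refine (hcont2.mono_left nhdsWithin_le_nhds).congr' ?_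
    filter_upwards [self_mem_nhdsWithin] with y hy
    exact (hy.2.2.2 o).symm
  exact tendsto_nhds_unique t1 t2

/-- A matrix as a function of two indices. -/
def fn (M : Matrix (Fin n) (Fin n) 𝕜) : Fin n → Fin n → 𝕜 := fun i j => M i j

lemma mm_fn [NontriviallyNormedField 𝕜] (A B : Matrix (Fin n) (Fin n) 𝕜) :
    mm ((fn A, fn B) : Pairs 𝕜 n) = fn (A * B) := by
  funext i j
  unfold fn
  rw [Matrix.mul_apply]
  rfl

lemma fderiv_coord [NontriviallyNormedField 𝕜] {Φ : (Fin n → Fin n → 𝕜) → Fin d → 𝕜}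
    {C : Fin n → Fin n → 𝕜} (h : DifferentiableAt 𝕜 Φ C) (o : Fin d) (N : Fin n → Fin n → 𝕜) :
    fderiv 𝕜 (fun C => Φ C o) C N = fderiv 𝕜 Φ C N o := by
  have h1 := hasFDerivAt_pi'.mp h.hasFDerivAt o
  have h2 := h1.fderiv
  have h3 : fderiv 𝕜 (fun C => Φ C o) C =
    (ContinuousLinearMap.proj o).comp (fderiv 𝕜 Φ C) := h2
  rw [h3]
  rfl

/-- The tensor of commutators, tested against `d` linearly independent forms, from a network. -/
lemma tensor_of_solvesF [RCLike 𝕜] {Φ : (Fin n → Fin n → 𝕜) → Fin d → 𝕜}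
    (h : SolvesF 𝕜 n a b L d Φ) :
    ∃ (w : Fin d → Fin n × Fin n → 𝕜) (U V : ℕ → Fin a → Fin n × Fin n → 𝕜)
      (C : Fin d → ℕ → Fin b → 𝕜) (β : ℕ → Fin b → Fin a → Fin a → 𝕜),
      LinearIndependent 𝕜 w ∧ ∀ (o : Fin d) (x y : Fin n × Fin n),
      ((if x.2 = y.1 then w o (x.1, y.2) else 0) - (if y.2 = x.1 then w o (y.1, x.2) else 0)) =
        ∑ s ∈ range L, ∑ r, C o s r * ∑ i, ∑ j, β s r i j * (U s j x * V s i y) -
        ∑ s ∈ range L, ∑ r, C o s r * ∑ i, ∑ j, β s r i j * (U s j y * V s i x) := by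
  classical
  obtain ⟨D, g, F, x0, hnet, hF, hx, hΦ, hsurj, hA, hB, hev⟩ := exists_openF h
  obtain ⟨U, V, β, hU⟩ := netF_hess hnet hx
  choose C hC using fun o => hU (F o) (hF o)
  obtain ⟨A0, hA0⟩ : ∃ A0 : Matrix (Fin n) (Fin n) 𝕜, A0 = Matrix.of x0.1 := ⟨_, rfl⟩
  obtain ⟨B0, hB0⟩ : ∃ B0 : Matrix (Fin n) (Fin n) 𝕜, B0 = Matrix.of x0.2 := ⟨_, rfl⟩
  rw [← hA0] at hA
  rw [← hB0] at hB
  have hx1 : x0.1 = fn A0 := by rw [hA0]; rfl
  have hx2 : x0.2 = fn B0 := by rw [hB0]; rfl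
  have hx0 : x0 = (fn A0, fn B0) := Prod.ext hx1 hx2
  have hmm : mm x0 = fn (A0 * B0) := by rw [hx0]; exact mm_fn A0 B0
  have hAu : IsUnit A0.det := isUnit_iff_ne_zero.mpr hA
  have hCu : IsUnit (A0 * B0).det := by
    rw [Matrix.det_mul]
    exact isUnit_iff_ne_zero.mpr (mul_ne_zero hA hB)
  have hφ : ∀ o, ContDiffAt 𝕜 2 (fun C => Φ C o) (mm x0) := fun o => contDiffAt_pi.mp hΦ o
  let E : Fin n × Fin n → Matrix (Fin n) (Fin n) 𝕜 := fun τ => Matrix.single τ.1 τ.2 1
  have hE : ∀ x y : Fin n × Fin n, E x * E y = if x.2 = y.1 then E (x.1, y.2) else 0 := by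
    intro x y
    simp only [E]
    by_cases hxy : x.2 = y.1
    · rw [if_pos hxy, hxy, Matrix.single_mul_single_same, mul_one]
    · rw [if_neg hxy, Matrix.single_mul_single_of_ne _ _ _ _ hxy]
  -- the second derivative in the directions `P A`, `A⁻¹ Q A B`
  have key : ∀ (o : Fin d) (P Q : Matrix (Fin n) (Fin n) 𝕜),
      ∑ s ∈ range L, ∑ r, C o s r * ∑ i, ∑ j, β s r i j *
        (U s j (fn (P * A0)) * V s i (fn (A0⁻¹ * Q * (A0 * B0)))) =
      fderiv 𝕜 (fun C => Φ C o) (mm x0) (fn (P * Q * (A0 * B0))) +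
        fderiv 𝕜 (fderiv 𝕜 (fun C => Φ C o)) (mm x0) (fn (P * (A0 * B0)))
          (fn (Q * (A0 * B0))) := by
    intro o P Q
    rw [← hC o]
    have h2 : F o =ᶠ[𝓝 x0] fun y : Pairs 𝕜 n => Φ (mm y) o := by
      filter_upwards [hev] with y hy
      exact hy o
    rw [H2_congr h2, mixed_mm (φ := fun C => Φ C o) (hφ o)]
    have e1 : mm ((fn (P * A0), fn (A0⁻¹ * Q * (A0 * B0))) : Pairs 𝕜 n) =
        fn (P * Q * (A0 * B0)) := by
      rw [mm_fn]
      congr 1
      calc P * A0 * (A0⁻¹ * Q * (A0 * B0)) = P * (A0 * A0⁻¹) * Q * (A0 * B0) := by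
            simp only [Matrix.mul_assoc]
        _ = _ := by rw [Matrix.mul_nonsing_inv _ hAu, Matrix.mul_one]
    have e2 : mm ((fn (P * A0), x0.2) : Pairs 𝕜 n) = fn (P * (A0 * B0)) := by
      rw [hx2, mm_fn, Matrix.mul_assoc]
    have e3 : mm ((x0.1, fn (A0⁻¹ * Q * (A0 * B0))) : Pairs 𝕜 n) = fn (Q * (A0 * B0)) := by
      rw [hx1, mm_fn]
      congr 1
      calc A0 * (A0⁻¹ * Q * (A0 * B0)) = (A0 * A0⁻¹) * Q * (A0 * B0) := by
            simp only [Matrix.mul_assoc]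
        _ = _ := by rw [Matrix.mul_nonsing_inv _ hAu, Matrix.one_mul]
    rw [e1, e2, e3]
  have hsymm : ∀ o M N, fderiv 𝕜 (fderiv 𝕜 (fun C => Φ C o)) (mm x0) M N =
      fderiv 𝕜 (fderiv 𝕜 (fun C => Φ C o)) (mm x0) N M := by
    intro o M N
    exact ((hφ o).isSymmSndFDerivAt (by simp)) M N
  have hlin : ∀ o, ∀ x y : Fin n × Fin n,
      fderiv 𝕜 (fun C => Φ C o) (mm x0) (fn (E x * E y * (A0 * B0))) =
        if x.2 = y.1 then fderiv 𝕜 (fun C => Φ C o) (mm x0) (fn (E (x.1, y.2) * (A0 * B0))) else 0 := by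
    intro o x y
    rw [hE]
    split_ifs
    · rfl
    · rw [Matrix.zero_mul]
      exact map_zero _
  refine ⟨fun o τ => fderiv 𝕜 (fun C => Φ C o) (mm x0) (fn (E τ * (A0 * B0))),
    fun s j x => U s j (fn (E x * A0)), fun s i y => V s i (fn (A0⁻¹ * E y * (A0 * B0))),
    C, β, ?_, ?_⟩
  · rw [Fintype.linearIndependent_iff]
    intro c hc o
    -- the functional vanishes
    have h1 : ∀ M : Matrix (Fin n) (Fin n) 𝕜,
        ∑ o, c o * fderiv 𝕜 Φ (mm x0) (fn (M * (A0 * B0))) o = 0 := by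
      intro M
      have h2 : M = ∑ i, ∑ j, M i j • E (i, j) := by
        conv_lhs => rw [Matrix.matrix_eq_sum_single M]
        refine Finset.sum_congr rfl fun i _ => Finset.sum_congr rfl fun j _ => ?_
        simp [E]
      have h3 : fn (M * (A0 * B0)) = ∑ i, ∑ j, M i j • fn (E (i, j) * (A0 * B0)) := by
        funext k l
        have h4 : (M * (A0 * B0)) = ∑ i, ∑ j, M i j • (E (i, j) * (A0 * B0)) := by
          conv_lhs => rw [h2]
          simp only [Matrix.sum_mul, Matrix.smul_mul]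
        simp only [fn, Finset.sum_apply, Pi.smul_apply]
        rw [h4]
        simp only [Matrix.sum_apply, Matrix.smul_apply]
      rw [h3]
      simp only [map_sum, map_smul, Finset.sum_apply, Pi.smul_apply, smul_eq_mul, Finset.mul_sum]
      rw [Finset.sum_comm]
      refine Finset.sum_eq_zero fun i _ => ?_
      rw [Finset.sum_comm]
      refine Finset.sum_eq_zero fun j _ => ?_
      have h5 := congrFun hc (i, j)
      simp only [Finset.sum_apply, Pi.smul_apply, smul_eq_mul, Pi.zero_apply] at h5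
      have h6 : ∑ o, c o * (M i j * fderiv 𝕜 Φ (mm x0) (fn (E (i, j) * (A0 * B0))) o) =
          M i j * ∑ o, c o * fderiv 𝕜 (fun C => Φ C o) (mm x0) (fn (E (i, j) * (A0 * B0))) := by
        rw [Finset.mul_sum]
        refine Finset.sum_congr rfl fun o _ => ?_
        rw [fderiv_coord (diff1 hΦ)]
        ring
      rw [h6, h5, mul_zero]
    obtain ⟨N, hN⟩ := hsurj (Pi.single o 1)
    have h2 := h1 (Matrix.of N * (A0 * B0)⁻¹)
    rw [Matrix.mul_assoc, Matrix.nonsing_inv_mul _ hCu, Matrix.mul_one] at h2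
    have h3 : fn (Matrix.of N) = N := rfl
    rw [h3, hN] at h2
    simpa [Pi.single_apply] using h2
  · intro o x y
    beta_reduce
    rw [key o (E x) (E y), key o (E y) (E x), hsymm o (fn (E x * (A0 * B0))), hlin, hlin]
    ring

theorem D_of_solvesF [RCLike 𝕜] (σ : 𝕜 →+* ℂ) {Φ : (Fin n → Fin n → 𝕜) → Fin d → 𝕜}
    (h : SolvesF 𝕜 n a b L d Φ) : ∃ w : Fin d → Fin n × Fin n → 𝕜, LinearIndependent 𝕜 w ∧
      ∀ c : Fin n × Fin n → Fin d → 𝕜,
      D (fun x y z : Fin n × Fin n => σ (∑ o, c z o * ((if x.2 = y.1 then w o (x.1, y.2) else 0) -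
        (if y.2 = x.1 then w o (y.1, x.2) else 0)))) (2 * L) a 1 a ∧
      D (fun x y z : Fin n × Fin n => σ (∑ o, c z o * ((if x.2 = y.1 then w o (x.1, y.2) else 0) -
        (if y.2 = x.1 then w o (y.1, x.2) else 0)))) (2 * L) 1 a b := by
  classical
  obtain ⟨w, U, V, C, β, hw, H⟩ := tensor_of_solvesF h
  refine ⟨w, hw, fun c => ?_⟩
  have hcard : Fintype.card (Fin L ⊕ Fin L) = 2 * L := by
    rw [Fintype.card_sum, Fintype.card_fin]; ring
  rw [← hcard]
  refine D_of_quad _ (κ := Fin L ⊕ Fin L)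
    (fun s j x => Sum.elim (fun s : Fin L => σ (U s j x)) (fun s : Fin L => σ (V s j x)) s)
    (fun s i y => Sum.elim (fun s : Fin L => σ (V s i y)) (fun s : Fin L => σ (U s i y)) s)
    (fun s r z => Sum.elim (fun s : Fin L => σ (∑ o, c z o * C o s r))
      (fun s : Fin L => - σ (∑ o, c z o * C o s r)) s)
    (fun s r i j => Sum.elim (fun s : Fin L => σ (β s r i j)) (fun s : Fin L => σ (β s r j i)) s) ?_
  intro x y z
  rw [Fintype.sum_sum_type]
  simp only [Sum.elim_inl, Sum.elim_inr]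
  have h1 : ∀ (P Q : ℕ → Fin a → 𝕜), ∑ o, c z o * ∑ s ∈ range L, ∑ r, C o s r *
      ∑ i, ∑ j, β s r i j * (P s j * Q s i) =
      ∑ s : Fin L, ∑ r, (∑ o, c z o * C o s r) * ∑ i, ∑ j, β s r i j * (P s j * Q s i) := by
    intro P Q
    simp only [Finset.sum_range, Finset.mul_sum, Finset.sum_mul]
    rw [Finset.sum_comm]
    refine Finset.sum_congr rfl fun s _ => ?_
    rw [Finset.sum_comm]
    refine Finset.sum_congr rfl fun r _ => ?_
    rw [Finset.sum_comm]
    refine Finset.sum_congr rfl fun i _ => ?_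
    rw [Finset.sum_comm]
    refine Finset.sum_congr rfl fun j _ => Finset.sum_congr rfl fun o _ => by ring
  have h2 : ∑ o, c z o * ((if x.2 = y.1 then w o (x.1, y.2) else 0) -
        (if y.2 = x.1 then w o (y.1, x.2) else 0)) =
      ∑ s : Fin L, ∑ r, (∑ o, c z o * C o s r) * ∑ i, ∑ j, β s r i j * (U s j x * V s i y) -
      ∑ s : Fin L, ∑ r, (∑ o, c z o * C o s r) * ∑ i, ∑ j, β s r i j * (U s j y * V s i x) := by
    rw [← h1 (fun s j => U s j x) (fun s i => V s i y), ← h1 (fun s j => U s j y)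
      (fun s i => V s i x), ← Finset.sum_sub_distrib]
    refine Finset.sum_congr rfl fun o _ => ?_
    rw [H o x y]
    ring
  rw [h2, map_sub, sub_eq_add_neg]
  congr 1
  · simp only [map_sum, map_mul]
  · rw [map_sum, ← Finset.sum_neg_distrib]
    refine Finset.sum_congr rfl fun s _ => ?_
    rw [map_sum, ← Finset.sum_neg_distrib]
    refine Finset.sum_congr rfl fun r _ => ?_
    rw [map_mul, neg_mul]
    congr 2
    rw [map_sum, Finset.sum_congr rfl fun i _ => map_sum σ _ _, Finset.sum_comm]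
    refine Finset.sum_congr rfl fun i _ => Finset.sum_congr rfl fun j _ => ?_
    rw [map_mul, map_mul]
    ring

/-- **The lower bound.** -/
theorem lowerF [RCLike 𝕜] (σ : 𝕜 →+* ℂ) {Φ : (Fin n → Fin n → 𝕜) → Fin d → 𝕜}
    (h : SolvesF 𝕜 n a b L d Φ) :
    ((n * (d - n) : ℕ) : ℝ) ^ (omega / 3) ≤
      2 * L * ((4 * (a * min a b) : ℕ) : ℝ) ^ (omega / 3) := by
  obtain ⟨w, hw, hD⟩ := D_of_solvesF σ h
  rcases le_total a b with hab | hab
  · rw [min_eq_left hab]
    have := comm_law σ w hw (fun c => (hD c).1)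
    rw [mul_one] at this
    push_cast at this ⊢
    exact this
  · rw [min_eq_right hab]
    have := comm_law σ w hw (fun c => (hD c).2)
    rw [one_mul] at this
    push_cast at this ⊢
    exact this

end main

end Pool.Agent.Y538.Fun
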