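import Pool.Agent.Y538.Fun.Alg

/-!
# Matrix multiplication with a prescribed set of output positions
-/

set_option autoImplicit false
set_option linter.unusedSectionVars false

namespace Pool.Agent.Y538.Fun

open Finset Filter Pool.Agent.H515R2.MMR Pool.Agent.W329.AR Pool.Agent.Y538.Net
open Pool.Agent.Y538.Par (le_of_pow_le_poly two_le_omega lag)

section part

variable {I J K : Type} [Fintype I] [Fintype J] [Fintype K] [DecidableEq I] [DecidableEq J]
  [DecidableEq K]

/-- Matrix multiplication with output positions in `S`. -/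
def PT (S : Finset (I × J)) : I × K → K × J → I × J → ℂ := fun x y z =>
  if x.2 = y.1 ∧ (x.1, y.2) = z ∧ z ∈ S then 1 else 0

theorem mix_rows {S : Finset (I × J)} {L p q s : ℕ} (D0 : ℕ)
    (h : D (PT S : I × K → K × J → I × J → ℂ) L p q s) :
    D (MMT ℂ (Fin (univ.filter fun i => D0 ≤ (univ.filter fun j => (i, j) ∈ S).card).card) K
      (Fin D0)) L p q s := by
  classical
  set R := univ.filter fun i => D0 ≤ (univ.filter fun j => (i, j) ∈ S).card with hR
  let ι : Fin R.card → I := fun α => (R.equivFin.symm α : I)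
  have hι : Function.Injective ι := fun α β h => R.equivFin.symm.injective (Subtype.ext h)
  have hιR : ∀ α, ι α ∈ R := fun α => (R.equivFin.symm α).2
  let v : J → ℂ := fun j => (((Fintype.equivFin J j : Fin _) : ℕ) : ℂ)
  have hv : Function.Injective v := by
    intro i j h
    have h1 : ((Fintype.equivFin J i : Fin _) : ℕ) = ((Fintype.equivFin J j : Fin _) : ℕ) :=
      Nat.cast_injective (R := ℂ) h
    exact (Fintype.equivFin J).injective (Fin.ext h1)
  let Sa : Fin R.card → Finset J := fun α => univ.filter fun j => (ι α, j) ∈ S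
  have hSa : ∀ α, D0 ≤ (Sa α).card := fun α => (Finset.mem_filter.mp (hιR α)).2
  have h' := D_lin h
    (fun (x' : Fin R.card × K) (x : I × K) => if (ι x'.1, x'.2) = x then 1 else 0)
    (fun (y' : K × Fin D0) (y : K × J) => if y'.1 = y.1 then v y.2 ^ (y'.2 : ℕ) else 0)
    (fun (z' : Fin D0 × Fin R.card) (z : I × J) => if ι z'.2 = z.1 then
      (Lagrange.basis (Sa z'.2) v z.2).coeff z'.1 else 0)
  refine h'.congr fun x' y' z' => ?_
  rw [Fintype.sum_eq_single (ι x'.1, x'.2)]
  swap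
  · intro x hx
    refine Finset.sum_eq_zero fun y _ => Finset.sum_eq_zero fun z _ => ?_
    rw [if_neg (fun h => hx h.symm)]
    ring
  rw [Fintype.sum_prod_type, Fintype.sum_eq_single x'.2]
  swap
  · intro k hk
    refine Finset.sum_eq_zero fun y _ => Finset.sum_eq_zero fun z _ => ?_
    have h0 : PT S (ι x'.1, x'.2) (k, y) z = 0 := if_neg (fun h => hk h.1.symm)
    rw [h0, mul_zero]
  have h1 : ∀ j : J, ∑ z : I × J, (if (ι x'.1, x'.2) = (ι x'.1, x'.2) then (1 : ℂ) else 0) *
      (if y'.1 = (x'.2, j).1 then v (x'.2, j).2 ^ (y'.2 : ℕ) else 0) *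
      (if ι z'.2 = z.1 then (Lagrange.basis (Sa z'.2) v z.2).coeff z'.1 else 0) *
      PT S (ι x'.1, x'.2) (x'.2, j) z = if y'.1 = x'.2 ∧ z'.2 = x'.1 then
        (if j ∈ Sa z'.2 then (Lagrange.basis (Sa z'.2) v j).coeff z'.1 *
          (Polynomial.X ^ (y'.2 : ℕ) : Polynomial ℂ).eval (v j) else 0) else 0 := by
    intro j
    rw [Fintype.sum_eq_single (ι x'.1, j)]
    · unfold PT
      simp only [if_true, one_mul, true_and, hι.eq_iff, Polynomial.eval_pow, Polynomial.eval_X]
      by_cases g1 : y'.1 = x'.2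
      · by_cases g2 : z'.2 = x'.1
        · have g3 : (ι x'.1, j) ∈ S ↔ j ∈ Sa z'.2 := by
            simp [Sa, g2]
          by_cases g4 : j ∈ Sa z'.2
          · have g5 := g3.mpr g4
            simp only [g1, g2, g5, and_self, if_true, mul_one]
            rw [g2] at g4
            rw [if_pos g4]
            ring
          · have g5 : ¬ (ι x'.1, j) ∈ S := fun h => g4 (g3.mp h)
            rw [g2] at g4
            simp only [g1, g2, and_self, if_true]
            rw [if_neg g4, if_neg g5, mul_zero]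
        · simp [g2]
      · simp [g1]
    · intro z hz
      have h0 : PT S (ι x'.1, x'.2) (x'.2, j) z = 0 := if_neg (fun h => hz h.2.1.symm)
      rw [h0, mul_zero]
  rw [Finset.sum_congr rfl fun j _ => h1 j]
  unfold MMT
  by_cases g1 : y'.1 = x'.2
  · by_cases g2 : z'.2 = x'.1
    · simp only [g1, g2, and_self, if_true, true_and]
      rw [Finset.sum_ite_mem, univ_inter, lag hv (Sa x'.1) (Polynomial.X ^ (y'.2 : ℕ)) (by
        rw [Polynomial.degree_X_pow]
        exact_mod_cast lt_of_lt_of_le y'.2.2 (hSa _)) z'.1, Polynomial.coeff_X_pow]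
      refine if_congr ?_ rfl rfl
      rw [Fin.ext_iff, eq_comm]
    · have g2' : ¬ x'.1 = z'.2 := fun h => g2 h.symm
      simp [g2, g2']
  · have g1' : ¬ x'.2 = y'.1 := fun h => g1 h.symm
    simp [g1, g1']

lemma exists_dyadic {R : Type} [Fintype R] (s : R → ℕ) (m : ℕ) (hs : ∀ i, s i < 2 ^ m) :
    ∃ t, ∑ i, s i ≤ m * (2 * (2 ^ t * (univ.filter fun i => 2 ^ t ≤ s i).card)) := by
  classical
  have h1 : ∀ i, s i ≤ ∑ t ∈ range m, if 2 ^ t ≤ s i then 2 * 2 ^ t else 0 := by
    intro i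
    rcases Nat.eq_zero_or_pos (s i) with h0 | h0
    · rw [h0]; exact Nat.zero_le _
    have h2 : 2 ^ Nat.log 2 (s i) ≤ s i := Nat.pow_log_le_self 2 (by omega)
    have h3 : s i < 2 ^ (Nat.log 2 (s i) + 1) := Nat.lt_pow_succ_log_self (by norm_num) _
    have h4 : Nat.log 2 (s i) < m := by
      have := lt_of_le_of_lt h2 (hs i)
      exact (Nat.pow_lt_pow_iff_right (by norm_num)).mp this
    calc s i ≤ if 2 ^ Nat.log 2 (s i) ≤ s i then 2 * 2 ^ Nat.log 2 (s i) else 0 := by
          rw [if_pos h2]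
          rw [pow_succ] at h3
          omega
      _ ≤ _ := Finset.single_le_sum (f := fun t => if 2 ^ t ≤ s i then 2 * 2 ^ t else 0)
          (fun _ _ => Nat.zero_le _) (Finset.mem_range.mpr h4)
  have h2 : ∑ i, s i ≤ ∑ t ∈ range m, 2 * (2 ^ t * (univ.filter fun i => 2 ^ t ≤ s i).card) := by
    calc ∑ i, s i ≤ ∑ i, ∑ t ∈ range m, (if 2 ^ t ≤ s i then 2 * 2 ^ t else 0) :=
          Finset.sum_le_sum fun i _ => h1 i
      _ = ∑ t ∈ range m, ∑ i, (if 2 ^ t ≤ s i then 2 * 2 ^ t else 0) := Finset.sum_comm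
      _ = _ := by
          refine Finset.sum_congr rfl fun t _ => ?_
          rw [← Finset.sum_filter, Finset.sum_const, smul_eq_mul]
          ring
  rcases Nat.eq_zero_or_pos m with h0 | h0
  · subst h0
    refine ⟨0, ?_⟩
    simpa using h2
  · by_contra hcon
    push Not at hcon
    have h3 : ∀ t ∈ range m, m * (2 * (2 ^ t * (univ.filter fun i => 2 ^ t ≤ s i).card)) + 1 ≤
      ∑ i, s i := fun t _ => hcon t
    have h4 := Finset.sum_le_sum h3
    rw [Finset.sum_const, Finset.card_range, smul_eq_mul, Finset.sum_add_distrib,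
      ← Finset.mul_sum] at h4
    simp only [Finset.sum_const, Finset.card_range, smul_eq_mul, mul_one] at h4
    have h5 := Nat.mul_le_mul_left m h2
    omega

lemma card_rows (S : Finset (I × J)) :
    ∑ i, (univ.filter fun j => (i, j) ∈ S).card = S.card := by
  simp_rw [Finset.card_filter]
  rw [← Fintype.sum_prod_type (f := fun z : I × J => if z ∈ S then 1 else 0)]
  rw [← Finset.card_filter]
  congr 1
  ext z
  simp

/-- powers -/
def Sp (S : Finset (I × J)) (N : ℕ) : Finset ((Fin N → I) × (Fin N → J)) :=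
  univ.filter fun z => ∀ t, (z.1 t, z.2 t) ∈ S

lemma card_Sp (S : Finset (I × J)) (N : ℕ) : (Sp S N).card = S.card ^ N := by
  classical
  have h1 : (Sp S N).card = (Fintype.piFinset fun _ : Fin N => S).card := by
    refine Finset.card_bij (fun z _ => fun t => (z.1 t, z.2 t)) ?_ ?_ ?_
    · intro z hz
      rw [Fintype.mem_piFinset]
      exact (Finset.mem_filter.mp hz).2
    · intro z _ z' _ h
      refine Prod.ext ?_ ?_
      · funext t
        have := congrFun h t
        exact (Prod.ext_iff.mp this).1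
      · funext t
        have := congrFun h t
        exact (Prod.ext_iff.mp this).2
    · intro z hz
      rw [Fintype.mem_piFinset] at hz
      exact ⟨(fun t => (z t).1, fun t => (z t).2), Finset.mem_filter.mpr
        ⟨Finset.mem_univ _, fun t => hz t⟩, rfl⟩
  rw [h1, Fintype.card_piFinset, Finset.prod_const, Finset.card_univ, Fintype.card_fin]

lemma PT_pow (S : Finset (I × J)) (N : ℕ) (x : (Fin N → I) × (Fin N → K))
    (y : (Fin N → K) × (Fin N → J)) (z : (Fin N → I) × (Fin N → J)) :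
    PT (Sp S N) x y z = ∏ t, PT S (x.1 t, x.2 t) (y.1 t, y.2 t) (z.1 t, z.2 t) := by
  unfold PT
  rw [Finset.prod_ite_zero]
  simp only [Finset.mem_univ, forall_true_left, Finset.prod_const_one]
  refine if_congr ?_ rfl rfl
  constructor
  · rintro ⟨h1, h2, h3⟩ t
    have h4 := (Prod.ext_iff.mp h2)
    refine ⟨congrFun h1 t, Prod.ext (congrFun h4.1 t) (congrFun h4.2 t), ?_⟩
    exact (Finset.mem_filter.mp h3).2 t
  · intro h
    refine ⟨funext fun t => (h t).1, Prod.ext (funext fun t => ?_) (funext fun t => ?_),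
      Finset.mem_filter.mpr ⟨Finset.mem_univ _, fun t => (h t).2.2⟩⟩
    · exact (Prod.ext_iff.mp (h t).2.1).1
    · exact (Prod.ext_iff.mp (h t).2.1).2

/-- **Schönhage's bound for a prescribed set of outputs.** -/
theorem part_law (S : Finset (I × J)) {L p q s h : ℕ} (hS : 1 ≤ S.card)
    (hK : 1 ≤ Fintype.card K)
    (H : ∀ N, 1 ≤ N → D (fun (x : Fin N → I × K) (y : Fin N → K × J) (z : Fin N → I × J) =>
      ∏ t, PT S (x t) (y t) (z t)) ((N * h + 1) * L ^ N) (p ^ N) (q ^ N) (s ^ N)) :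
    ((Fintype.card K * S.card : ℕ) : ℝ) ^ (omega / 3) ≤
      L * ((p * q * s : ℕ) : ℝ) ^ (omega / 3) := by
  classical
  have hω := two_le_omega
  obtain ⟨k, hk⟩ := exists_nat_ge (omega / 3)
  set P : ℕ := p * q * s with hP
  refine le_of_pow_le_poly (D := 2 ^ k) (h := h + Fintype.card J) (k := k + 1) (by positivity)
    (by positivity) ?_
  intro N hN
  have h1 := (H N hN).comp (fun x : (Fin N → I) × (Fin N → K) => fun t => (x.1 t, x.2 t))
    (fun x : (Fin N → K) × (Fin N → J) => fun t => (x.1 t, x.2 t))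
    (fun x : (Fin N → I) × (Fin N → J) => fun t => (x.1 t, x.2 t))
  have h2 : D (PT (Sp S N) : (Fin N → I) × (Fin N → K) → (Fin N → K) × (Fin N → J) →
      (Fin N → I) × (Fin N → J) → ℂ) ((N * h + 1) * L ^ N) (p ^ N) (q ^ N) (s ^ N) :=
    h1.congr fun x y z => PT_pow S N x y z
  set m : ℕ := N * Fintype.card J + 1 with hm
  have h3 : ∀ i : Fin N → I, (univ.filter fun j => (i, j) ∈ Sp S N).card < 2 ^ m := by
    intro i
    calc (univ.filter fun j => (i, j) ∈ Sp S N).card ≤ Fintype.card (Fin N → J) :=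
          Finset.card_le_univ _
      _ = Fintype.card J ^ N := by rw [Fintype.card_fun, Fintype.card_fin]
      _ ≤ (2 ^ Fintype.card J) ^ N := Nat.pow_le_pow_left Nat.lt_two_pow_self.le _
      _ = 2 ^ (N * Fintype.card J) := by rw [← pow_mul, mul_comm]
      _ < 2 ^ m := Nat.pow_lt_pow_right (by norm_num) (by omega)
  obtain ⟨t, ht⟩ := exists_dyadic _ m h3
  rw [card_rows, card_Sp] at ht
  have h4 := mix_rows (2 ^ t) h2
  set B : ℕ := (univ.filter fun i => 2 ^ t ≤ (univ.filter fun j => (i, j) ∈ Sp S N).card).card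
    with hB
  have hcK : Fintype.card (Fin N → K) = Fintype.card K ^ N := by
    rw [Fintype.card_fun, Fintype.card_fin]
  let e : Fin (Fintype.card K ^ N) ≃ (Fin N → K) := (Fintype.equivFinOfCardEq hcK).symm
  have h5 : D (MMT ℂ (Fin B) (Fin (Fintype.card K ^ N)) (Fin (2 ^ t))) ((N * h + 1) * L ^ N)
      (p ^ N) (q ^ N) (s ^ N) := by
    refine (h4.comp (fun x : Fin B × Fin (Fintype.card K ^ N) => (x.1, e x.2))
      (fun x : Fin (Fintype.card K ^ N) × Fin (2 ^ t) => (e x.1, x.2))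
      (fun x : Fin (2 ^ t) × Fin B => x)).congr fun x y z => ?_
    unfold MMT
    simp only [e.injective.eq_iff]
  have hSN : 1 ≤ S.card ^ N := Nat.one_le_pow _ _ hS
  have hB1 : 1 ≤ B := by
    by_contra hcon
    have h0 : B = 0 := by omega
    rw [h0] at ht
    simp only [mul_zero] at ht
    omega
  have h6 := rect_bound (a := B) (b := Fintype.card K ^ N) (c := 2 ^ t)
    (Nat.mul_pos (Nat.mul_pos hB1 (Nat.one_le_pow _ _ hK)) (Nat.one_le_pow _ _ (by norm_num))) h5
  have h7 : (((Fintype.card K * S.card : ℕ) : ℝ)) ^ N ≤ ((2 * m : ℕ) : ℝ) *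
      ((B * Fintype.card K ^ N * 2 ^ t : ℕ) : ℝ) := by
    have : (Fintype.card K * S.card) ^ N ≤ 2 * m * (B * Fintype.card K ^ N * 2 ^ t) := by
      rw [mul_pow]
      calc Fintype.card K ^ N * S.card ^ N ≤ Fintype.card K ^ N * (m * (2 * (2 ^ t * B))) :=
            Nat.mul_le_mul_left _ ht
        _ = _ := by ring
    exact_mod_cast this
  have hm1 : 1 ≤ 2 * m := by omega
  have e1 : (((Fintype.card K * S.card : ℕ) : ℝ) ^ (omega / 3)) ^ N =
      (((Fintype.card K * S.card : ℕ) : ℝ) ^ N) ^ (omega / 3) := by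
    rw [← Real.rpow_natCast, ← Real.rpow_mul (Nat.cast_nonneg _),
      ← Real.rpow_natCast ((Fintype.card K * S.card : ℕ) : ℝ) N,
      ← Real.rpow_mul (Nat.cast_nonneg _), mul_comm (omega / 3)]
  have e2 : ((p ^ N * q ^ N * s ^ N : ℕ) : ℝ) ^ (omega / 3) = ((P : ℝ) ^ (omega / 3)) ^ N := by
    have : p ^ N * q ^ N * s ^ N = P ^ N := by rw [hP]; ring
    rw [this, Nat.cast_pow, ← Real.rpow_natCast (P : ℝ) N, ← Real.rpow_mul (Nat.cast_nonneg _),
      ← Real.rpow_natCast ((P : ℝ) ^ (omega / 3)) N, ← Real.rpow_mul (Nat.cast_nonneg _),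
      mul_comm (omega / 3)]
  rw [e2] at h6
  rw [e1]
  have h8 : (((Fintype.card K * S.card : ℕ) : ℝ) ^ N) ^ (omega / 3) ≤
      ((2 * m : ℕ) : ℝ) ^ (omega / 3) * ((B * Fintype.card K ^ N * 2 ^ t : ℕ) : ℝ) ^ (omega / 3) := by
    rw [← Real.mul_rpow (Nat.cast_nonneg _) (Nat.cast_nonneg _)]
    exact Real.rpow_le_rpow (by positivity) h7 (by positivity)
  have h9 : ((2 * m : ℕ) : ℝ) ^ (omega / 3) ≤ ((2 * m : ℕ) : ℝ) ^ k := by
    rw [← Real.rpow_natCast]
    exact Real.rpow_le_rpow_of_exponent_le (by exact_mod_cast hm1) hk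
  have h10 : ((2 * m : ℕ) : ℝ) ≤ 2 * ((N : ℝ) * ((h + Fintype.card J : ℕ) : ℝ) + 1) := by
    rw [hm]
    push_cast
    have : (0 : ℝ) ≤ (N : ℝ) * h := by positivity
    nlinarith
  have h11 : (((N * h + 1) * L ^ N : ℕ) : ℝ) ≤ ((N : ℝ) * ((h + Fintype.card J : ℕ) : ℝ) + 1) *
      (L : ℝ) ^ N := by
    push_cast
    apply mul_le_mul_of_nonneg_right _ (by positivity)
    have : (0 : ℝ) ≤ (N : ℝ) * Fintype.card J := by positivity
    nlinarith
  set Y : ℝ := (N : ℝ) * ((h + Fintype.card J : ℕ) : ℝ) + 1 with hY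
  have hY0 : 0 ≤ Y := by positivity
  calc (((Fintype.card K * S.card : ℕ) : ℝ) ^ N) ^ (omega / 3)
      ≤ ((2 * m : ℕ) : ℝ) ^ (omega / 3) *
        ((B * Fintype.card K ^ N * 2 ^ t : ℕ) : ℝ) ^ (omega / 3) := h8
    _ ≤ (2 * Y) ^ k * ((((N * h + 1) * L ^ N : ℕ) : ℝ) * ((P : ℝ) ^ (omega / 3)) ^ N) := by
        refine mul_le_mul (h9.trans (pow_le_pow_left₀ (Nat.cast_nonneg _) h10 k)) h6
          (by positivity) (by positivity)
    _ ≤ (2 * Y) ^ k * ((Y * (L : ℝ) ^ N) * ((P : ℝ) ^ (omega / 3)) ^ N) := by gcongr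
    _ = 2 ^ k * Y ^ (k + 1) * (↑L * (P : ℝ) ^ (omega / 3)) ^ N := by
        rw [mul_pow, mul_pow]; ring

end part

end Pool.Agent.Y538.Fun
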